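import Mathlib

open MeasureTheory Set Module

namespace Pool.Agent.ZN

variable {E : Type} [NormedAddCommGroup E] [NormedSpace ℝ E]
variable {Ω : Type} [MeasurableSpace Ω]

/-- the support function `b ↦ ∫ |F ω b| dμ` (an `L¹` seminorm). -/
noncomputable def nm (μ : Measure Ω) (F : Ω → E →ₗ[ℝ] ℝ) (b : E) : ℝ := ∫ ω, |F ω b| ∂μ

structure Dat (μ : Measure Ω) (F : Ω → E →ₗ[ℝ] ℝ) : Prop where
  meas : ∀ b, Measurable fun ω => F ω b
  int : ∀ b, Integrable (fun ω => F ω b) μ

variable {μ : Measure Ω} {F : Ω → E →ₗ[ℝ] ℝ}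

lemma Dat.restrict (h : Dat μ F) (C : Set Ω) : Dat (μ.restrict C) F :=
  ⟨h.meas, fun b => (h.int b).restrict⟩

lemma nm_nonneg (b : E) : 0 ≤ nm μ F b := integral_nonneg fun _ => abs_nonneg _

lemma nm_zero : nm μ F (0 : E) = 0 := by simp [nm]

lemma nm_smul (c : ℝ) (b : E) : nm μ F (c • b) = |c| * nm μ F b := by
  simp only [nm, map_smul, smul_eq_mul, abs_mul]
  rw [integral_const_mul]

lemma nm_neg (b : E) : nm μ F (-b) = nm μ F b := by
  simp [nm]

lemma Dat.nm_add_le (h : Dat μ F) (a b : E) : nm μ F (a + b) ≤ nm μ F a + nm μ F b := by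
  unfold nm
  rw [← integral_add (h.int a).abs (h.int b).abs]
  apply integral_mono (h.int _).abs ((h.int a).abs.add (h.int b).abs)
  intro ω
  simp only [map_add, Pi.add_apply]
  exact abs_add_le _ _

lemma Dat.nm_sub_le (h : Dat μ F) (a b : E) : nm μ F (a - b) ≤ nm μ F a + nm μ F b := by
  rw [sub_eq_add_neg]
  calc _ ≤ nm μ F a + nm μ F (-b) := h.nm_add_le _ _
    _ = _ := by rw [nm_neg]

lemma Dat.nm_le_add_sub (h : Dat μ F) (a b : E) : nm μ F a ≤ nm μ F b + nm μ F (a - b) := by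
  have := h.nm_add_le b (a - b)
  simpa using this

lemma Dat.abs_nm_sub (h : Dat μ F) (a b : E) : |nm μ F a - nm μ F b| ≤ nm μ F (a - b) := by
  rw [abs_le]
  constructor
  · have := h.nm_le_add_sub b a
    have h2 : nm μ F (b - a) = nm μ F (a - b) := by rw [← nm_neg, neg_sub]
    linarith
  · have := h.nm_le_add_sub a b
    linarith

lemma Dat.nm_split (h : Dat μ F) {C : Set Ω} (hC : MeasurableSet C) (b : E) :
    nm (μ.restrict C) F b + nm (μ.restrict Cᶜ) F b = nm μ F b := by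
  unfold nm
  exact integral_add_compl hC (h.int b).abs

lemma Dat.nm_restrict_le (h : Dat μ F) (C : Set Ω) (b : E) :
    nm (μ.restrict C) F b ≤ nm μ F b := by
  unfold nm
  exact setIntegral_le_integral (h.int b).abs (Filter.Eventually.of_forall fun _ => abs_nonneg _)

lemma Dat.nm_sum_le (h : Dat μ F) {ι : Type} (s : Finset ι) (v : ι → E) :
    nm μ F (∑ i ∈ s, v i) ≤ ∑ i ∈ s, nm μ F (v i) := by
  classical
  induction s using Finset.induction_on with
  | empty => simp [nm_zero]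
  | insert a s ha ih =>
    rw [Finset.sum_insert ha, Finset.sum_insert ha]
    exact (h.nm_add_le _ _).trans (by linarith)

section fd
variable [FiniteDimensional ℝ E]

lemma Dat.exists_bound (h : Dat μ F) : ∃ K : ℝ, 0 < K ∧ ∀ b, nm μ F b ≤ K * ‖b‖ := by
  classical
  let B := Module.finBasis ℝ E
  have hc : ∀ i, ∃ c : ℝ, 0 < c ∧ ∀ b, |B.repr b i| ≤ c * ‖b‖ := by
    intro i
    let L : E →L[ℝ] ℝ := LinearMap.toContinuousLinearMap (B.coord i)
    refine ⟨‖L‖ + 1, by positivity, fun b => ?_⟩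
    have h1 : ‖L b‖ ≤ ‖L‖ * ‖b‖ := L.le_opNorm b
    have h2 : L b = B.repr b i := rfl
    rw [← h2, ← Real.norm_eq_abs]
    have := norm_nonneg b
    nlinarith
  choose c hc0 hc using hc
  refine ⟨∑ i, c i * nm μ F (B i) + 1, ?_, fun b => ?_⟩
  · have : 0 ≤ ∑ i, c i * nm μ F (B i) :=
      Finset.sum_nonneg fun i _ => mul_nonneg (hc0 i).le (nm_nonneg _)
    linarith
  · calc nm μ F b = nm μ F (∑ i, B.repr b i • B i) := by rw [B.sum_repr]
      _ ≤ ∑ i, nm μ F (B.repr b i • B i) := h.nm_sum_le _ _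
      _ = ∑ i, |B.repr b i| * nm μ F (B i) := by simp [nm_smul]
      _ ≤ ∑ i, (c i * ‖b‖) * nm μ F (B i) := by
          apply Finset.sum_le_sum
          intro i _
          exact mul_le_mul_of_nonneg_right (hc i b) (nm_nonneg _)
      _ = (∑ i, c i * nm μ F (B i)) * ‖b‖ := by
          rw [Finset.sum_mul]
          exact Finset.sum_congr rfl fun i _ => by ring
      _ ≤ _ := by
          have := norm_nonneg b
          nlinarith

lemma Dat.continuous (h : Dat μ F) : Continuous (nm μ F) := by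
  obtain ⟨K, hK0, hK⟩ := h.exists_bound
  have : LipschitzWith ⟨K, hK0.le⟩ (nm μ F) := by
    apply LipschitzWith.of_dist_le_mul
    intro a b
    rw [Real.dist_eq, dist_eq_norm]
    exact (h.abs_nm_sub a b).trans (hK _)
  exact this.continuous

lemma Dat.exists_lower (h : Dat μ F) (hpos : ∀ b, b ≠ 0 → 0 < nm μ F b) :
    ∃ c : ℝ, 0 < c ∧ ∀ b, c * ‖b‖ ≤ nm μ F b := by
  rcases subsingleton_or_nontrivial E with hs | hn
  · refine ⟨1, one_pos, fun b => ?_⟩
    have : b = 0 := Subsingleton.elim _ _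
    subst this
    simp [nm_zero]
  · have hcomp : IsCompact (Metric.sphere (0 : E) 1) := isCompact_sphere _ _
    have hne : (Metric.sphere (0 : E) 1).Nonempty := by
      exact NormedSpace.sphere_nonempty.mpr zero_le_one
    obtain ⟨x, hx, hmin⟩ := hcomp.exists_isMinOn hne h.continuous.continuousOn
    have hx1 : ‖x‖ = 1 := by simpa using hx
    have hx0 : x ≠ 0 := by
      intro h0
      rw [h0] at hx1
      simp at hx1
    refine ⟨nm μ F x, hpos x hx0, fun b => ?_⟩
    by_cases hb : b = 0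
    · subst hb
      simp [nm_zero]
    · have hbn : 0 < ‖b‖ := norm_pos_iff.mpr hb
      have h1 : (‖b‖⁻¹ • b) ∈ Metric.sphere (0 : E) 1 := by
        simp [norm_smul, hbn.ne']
      have h2 : nm μ F x ≤ nm μ F (‖b‖⁻¹ • b) := hmin h1
      rw [nm_smul, abs_of_pos (inv_pos.mpr hbn)] at h2
      calc nm μ F x * ‖b‖ ≤ (‖b‖⁻¹ * nm μ F b) * ‖b‖ :=
            mul_le_mul_of_nonneg_right h2 hbn.le
        _ = nm μ F b := by field_simp

end fd

end Pool.Agent.ZN
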