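import Mathlib

open Set

namespace Pool.Agent.ZN

lemma greedy_step {E : Type} {V : ℝ} (hV1 : V ≤ 1) (P : E → E → Prop) (S : Finset E)
    (hP : ∀ I : Finset E, I ⊆ S → ∃ b : E, ∃ G : Finset E, G ⊆ I ∧ V * (I.card : ℝ) ≤ (G.card : ℝ) ∧
      ∀ y ∈ G, P b y) (k : ℕ) :
    ∃ (w : Fin k → E) (R : Finset E), R ⊆ S ∧ (R.card : ℝ) ≤ (1 - V) ^ k * (S.card : ℝ) ∧
      ∀ y ∈ S, y ∉ R → ∃ i, P (w i) y := by
  classical
  induction k with
  | zero =>
    refine ⟨fun i => i.elim0, S, Finset.Subset.refl S, by simp, fun y hy hyR => absurd hy hyR⟩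
  | succ k ih =>
    obtain ⟨w, R, hRS, hcard, hcov⟩ := ih
    obtain ⟨b, G, hGR, hG, hPb⟩ := hP R hRS
    refine ⟨Fin.snoc w b, R \ G, (Finset.sdiff_subset).trans hRS, ?_, ?_⟩
    · have h1 : ((R \ G).card : ℝ) = (R.card : ℝ) - (G.card : ℝ) := by
        rw [Finset.card_sdiff_of_subset hGR, Nat.cast_sub (Finset.card_le_card hGR)]
      rw [h1, pow_succ]
      calc (R.card : ℝ) - G.card ≤ (R.card : ℝ) - V * R.card := by linarith
        _ = (1 - V) * R.card := by ring
        _ ≤ (1 - V) * ((1 - V) ^ k * (S.card : ℝ)) :=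
            mul_le_mul_of_nonneg_left hcard (by linarith)
        _ = _ := by ring
    · intro y hy hyR
      by_cases hyR' : y ∈ R
      · have hyG : y ∈ G := by
          by_contra hyG
          exact hyR (Finset.mem_sdiff.mpr ⟨hyR', hyG⟩)
        exact ⟨Fin.last k, by simpa using hPb y hyG⟩
      · obtain ⟨i, hi⟩ := hcov y hy hyR'
        exact ⟨i.castSucc, by simpa using hi⟩

/-- TASK Z2 (helper57). Greedy cover: repeatedly choose `b` covering a fraction `V` of what is left;
after `n` steps at most `(1 - V)^n |S| ≤ e^{-V n} |S|` points are left; `n = ⌊log |S| / V⌋ + 1`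
steps suffice. -/
theorem greedy_cover {E : Type} {V : ℝ} (hV : 0 < V) (P : E → E → Prop) (S : Finset E)
    (hP : ∀ I : Finset E, I ⊆ S → ∃ b : E, ∃ G : Finset E, G ⊆ I ∧ V * (I.card : ℝ) ≤ (G.card : ℝ) ∧
      ∀ y ∈ G, P b y) (hS : S.Nonempty) :
    ∃ (n : ℕ) (w : Fin n → E), (n : ℝ) ≤ Real.log S.card / V + 1 ∧ ∀ y ∈ S, ∃ i, P (w i) y := by
  have hSpos : (0 : ℝ) < (S.card : ℝ) := by exact_mod_cast hS.card_pos
  have hS1 : (1 : ℝ) ≤ (S.card : ℝ) := by exact_mod_cast hS.card_pos
  have hV1 : V ≤ 1 := by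
    obtain ⟨b, G, hG, hGc, -⟩ := hP S (Finset.Subset.refl S)
    have h1 : (G.card : ℝ) ≤ (S.card : ℝ) := by exact_mod_cast Finset.card_le_card hG
    have h2 : V * (S.card : ℝ) ≤ 1 * (S.card : ℝ) := by linarith
    exact le_of_mul_le_mul_right h2 hSpos
  have hlog : 0 ≤ Real.log S.card := Real.log_nonneg hS1
  obtain ⟨w, R, hRS, hcard, hcov⟩ := greedy_step hV1 P S hP (⌊Real.log S.card / V⌋₊ + 1)
  refine ⟨⌊Real.log S.card / V⌋₊ + 1, w, ?_, fun y hy => hcov y hy ?_⟩
  · push_cast
    have := Nat.floor_le (div_nonneg hlog hV.le)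
    linarith
  · have hn : Real.log S.card / V < ((⌊Real.log S.card / V⌋₊ + 1 : ℕ) : ℝ) := by
      push_cast
      exact Nat.lt_floor_add_one _
    set n : ℕ := ⌊Real.log S.card / V⌋₊ + 1
    have h1 : (1 - V) ^ n ≤ Real.exp (-(V * n)) := by
      have h2 : 1 - V ≤ Real.exp (-V) := by
        have := Real.add_one_le_exp (-V)
        linarith
      calc (1 - V) ^ n ≤ (Real.exp (-V)) ^ n := pow_le_pow_left₀ (by linarith) h2 n
        _ = Real.exp (-(V * n)) := by
            rw [← Real.exp_nat_mul]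
            congr 1
            ring
    have h3 : Real.log S.card < V * n := by
      rw [div_lt_iff₀ hV] at hn
      linarith
    have h4 : (R.card : ℝ) < 1 := by
      calc (R.card : ℝ) ≤ (1 - V) ^ n * (S.card : ℝ) := hcard
        _ ≤ Real.exp (-(V * n)) * (S.card : ℝ) := mul_le_mul_of_nonneg_right h1 hSpos.le
        _ = Real.exp (-(V * n)) * Real.exp (Real.log S.card) := by rw [Real.exp_log hSpos]
        _ = Real.exp (Real.log S.card - V * n) := by
            rw [← Real.exp_add]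
            congr 1
            ring
        _ < 1 := by
            rw [Real.exp_lt_one_iff]
            linarith
    have h5 : R.card = 0 := by
      have : R.card < 1 := by exact_mod_cast h4
      omega
    rw [Finset.card_eq_zero] at h5
    rw [h5]
    exact Finset.notMem_empty y

end Pool.Agent.ZN
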