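import Pool.Agent.ZN.Gibbs

open MeasureTheory Set Module
open scoped Pointwise

namespace Pool.Agent.ZN

variable {E : Type} [NormedAddCommGroup E] [NormedSpace ℝ E] [FiniteDimensional ℝ E]
  [MeasurableSpace E] [BorelSpace E]
variable {Ω : Type} [MeasurableSpace Ω]
variable {μ : Measure Ω} {F : Ω → E →ₗ[ℝ] ℝ}

omit [FiniteDimensional ℝ E] [MeasurableSpace E] [BorelSpace E] in
lemma nm_ball_eq_smul (μ : Measure Ω) (F : Ω → E →ₗ[ℝ] ℝ) {r : ℝ} (hr : 0 < r) :
    {b | nm μ F b < r} = r • {b | nm μ F b < 1} := by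
  ext b
  rw [mem_smul_set_iff_inv_smul_mem₀ hr.ne', Set.mem_ofPred_eq, Set.mem_ofPred_eq, nm_smul,
    abs_of_pos (inv_pos.mpr hr), inv_mul_lt_iff₀ hr, mul_one]

lemma nm_ball_volume (μ : Measure Ω) (F : Ω → E →ₗ[ℝ] ℝ) (lam : Measure E)
    [lam.IsAddHaarMeasure] {r : ℝ} (hr : 0 < r) :
    lam {b | nm μ F b < r} = ENNReal.ofReal (r ^ finrank ℝ E) * lam {b | nm μ F b < 1} := by
  rw [nm_ball_eq_smul μ F hr, Measure.addHaar_smul, abs_of_pos (by positivity)]

lemma Dat.card_separated_le (h : Dat μ F) (hpos : ∀ b, b ≠ 0 → 0 < nm μ F b) {η : ℝ} (hη : 0 < η)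
    (hη1 : η ≤ 1) (S : Finset E) (hS1 : ∀ y ∈ S, nm μ F y = 1)
    (hS2 : ∀ x ∈ S, ∀ y ∈ S, x ≠ y → η / 2 < nm μ F (x - y)) :
    (S.card : ℝ) ≤ (5 / η) ^ finrank ℝ E := by
  classical
  set d := finrank ℝ E
  let lam : Measure E := Measure.addHaar
  obtain ⟨c, hc, hlow⟩ := h.exists_lower hpos
  have hopen : ∀ r : ℝ, IsOpen {b | nm μ F b < r} := fun r =>
    isOpen_lt h.continuous continuous_const
  have hv0 : lam {b | nm μ F b < 1} ≠ 0 :=
    ((hopen 1).measure_pos lam ⟨0, by simp [nm_zero]⟩).ne'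
  have hvtop : lam {b | nm μ F b < 1} ≠ ⊤ := by
    apply ne_of_lt
    apply lt_of_le_of_lt (measure_mono _) (measure_ball_lt_top (μ := lam) (x := (0 : E)) (r := 1 / c))
    intro b hb
    rw [mem_ball_zero_iff, lt_div_iff₀ hc]
    have := hlow b
    have hb' : nm μ F b < 1 := hb
    linarith
  -- the translates
  have hdisj : (↑S : Set E).PairwiseDisjoint fun y => (fun b => b - y) ⁻¹' {b | nm μ F b < η / 4} := by
    intro x hx y hy hxy
    rw [Function.onFun, Set.disjoint_left]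
    intro b hbx hby
    have h1 : nm μ F (b - x) < η / 4 := hbx
    have h2 : nm μ F (b - y) < η / 4 := hby
    have h3 := hS2 x hx y hy hxy
    have h4 := h.nm_sub_le (b - y) (b - x)
    rw [sub_sub_sub_cancel_left] at h4
    linarith
  have hmeas : ∀ y ∈ S, MeasurableSet ((fun b => b - y) ⁻¹' {b | nm μ F b < η / 4}) := fun y _ =>
    ((hopen _).preimage (by fun_prop)).measurableSet
  have hunion := measure_biUnion_finset (μ := lam) hdisj hmeas
  have heach : ∀ y ∈ S, lam ((fun b => b - y) ⁻¹' {b | nm μ F b < η / 4}) =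
      ENNReal.ofReal ((η / 4) ^ d) * lam {b | nm μ F b < 1} := by
    intro y _
    rw [← nm_ball_volume μ F lam (by positivity : 0 < η / 4)]
    simp_rw [sub_eq_add_neg]
    exact measure_preimage_add_right lam (-y) _
  rw [Finset.sum_congr rfl heach, Finset.sum_const, nsmul_eq_mul] at hunion
  have hsub : (⋃ y ∈ S, (fun b => b - y) ⁻¹' {b | nm μ F b < η / 4}) ⊆ {b | nm μ F b < 1 + η / 4} := by
    intro b hb
    simp only [mem_iUnion] at hb
    obtain ⟨y, hy, hb⟩ := hb
    have h1 : nm μ F (b - y) < η / 4 := hb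
    have h2 := h.nm_le_add_sub b y
    rw [hS1 y hy] at h2
    show nm μ F b < 1 + η / 4
    linarith
  have hle := measure_mono (μ := lam) hsub
  rw [hunion, nm_ball_volume μ F lam (by positivity : 0 < 1 + η / 4), ← mul_assoc] at hle
  have hle2 := (ENNReal.mul_le_mul_iff_left hv0 hvtop).mp hle
  have hle3 : (S.card : ℝ) * (η / 4) ^ d ≤ (1 + η / 4) ^ d := by
    have h1 : ((S.card : ENNReal) * ENNReal.ofReal ((η / 4) ^ d)).toReal ≤
        (ENNReal.ofReal ((1 + η / 4) ^ d)).toReal :=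
      ENNReal.toReal_mono ENNReal.ofReal_ne_top hle2
    rw [ENNReal.toReal_mul, ENNReal.toReal_natCast, ENNReal.toReal_ofReal (by positivity),
      ENNReal.toReal_ofReal (by positivity)] at h1
    exact h1
  have hpow : 0 < (η / 4) ^ d := by positivity
  rw [← le_div_iff₀ hpow, ← div_pow] at hle3
  refine hle3.trans (pow_le_pow_left₀ (by positivity) ?_ d)
  rw [div_le_div_iff₀ (by positivity) hη]
  nlinarith

/-- TASK Z1 (helper57). Net by volume packing: take a finite set of unit vectors, pairwise at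
`nm`-distance `> η/2`, of maximal cardinality (the translates of `{nm < η/4}` are disjoint subsets of
`{nm < 1 + η/4}`; volumes scale by `Measure.addHaar_smul`), so the cardinality is
`≤ (1 + 4/η)^d ≤ (5/η)^d`. -/
theorem Dat.exists_net (h : Dat μ F) (hpos : ∀ b, b ≠ 0 → 0 < nm μ F b) {η : ℝ} (hη : 0 < η)
    (hη1 : η ≤ 1) : ∃ S : Finset E, (∀ y ∈ S, nm μ F y = 1) ∧
      (∀ x, nm μ F x = 1 → ∃ y ∈ S, nm μ F (x - y) ≤ η / 2) ∧
      (S.card : ℝ) ≤ (5 / η) ^ finrank ℝ E := by
  classical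
  let P : ℕ → Prop := fun n => ∃ S : Finset E, S.card = n ∧ (∀ y ∈ S, nm μ F y = 1) ∧
    ∀ x ∈ S, ∀ y ∈ S, x ≠ y → η / 2 < nm μ F (x - y)
  have hP0 : P 0 := ⟨∅, by simp, by simp, by simp⟩
  have hPb : ∀ n, P n → n ≤ ⌊(5 / η) ^ finrank ℝ E⌋₊ := by
    rintro n ⟨S, rfl, hS1, hS2⟩
    exact Nat.le_floor (h.card_separated_le hpos hη hη1 S hS1 hS2)
  have hmax := Nat.findGreatest_spec (P := P) (Nat.zero_le ⌊(5 / η) ^ finrank ℝ E⌋₊) hP0
  obtain ⟨S, hSc, hS1, hS2⟩ := hmax
  refine ⟨S, hS1, fun x hx => ?_, h.card_separated_le hpos hη hη1 S hS1 hS2⟩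
  by_contra hcon
  push Not at hcon
  have hxS : x ∉ S := by
    intro hxS
    have h1 := hcon x hxS
    rw [sub_self, nm_zero] at h1
    linarith
  have hPs : P (S.card + 1) := by
    refine ⟨insert x S, Finset.card_insert_of_notMem hxS, ?_, ?_⟩
    · intro y hy
      rcases Finset.mem_insert.mp hy with rfl | hy
      · exact hx
      · exact hS1 y hy
    · intro a ha b hb hab
      rcases Finset.mem_insert.mp ha with ha1 | ha1
      · rcases Finset.mem_insert.mp hb with hb1 | hb1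
        · exact absurd (ha1.trans hb1.symm) hab
        · rw [ha1]
          exact hcon b hb1
      · rcases Finset.mem_insert.mp hb with hb1 | hb1
        · have h1 := hcon a ha1
          rw [← nm_neg, neg_sub] at h1
          rw [hb1]
          exact h1
        · exact hS2 a ha1 b hb1 hab
  have h1 := Nat.le_findGreatest (P := P) (hPb _ hPs) hPs
  omega

end Pool.Agent.ZN
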