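import Pool.Agent.ZN.Induct
import Pool.Agent.ZN.Net
import Pool.Agent.ZN.Greedy

open MeasureTheory Set Module

namespace Pool.Agent.ZN


/-- TASK Z3 (helper14). By induction on `d`: `eta d ≥ ((10^6 d^5)^d)⁻¹`. -/
theorem eta_lower (d : ℕ) (hd : 1 ≤ d) : ((1000000 * (d : ℝ) ^ 5) ^ d)⁻¹ ≤ eta d := by
  clear hd
  induction d with
  | zero => simp [eta]
  | succ k ih =>
    have hk0 : (0 : ℝ) ≤ k := Nat.cast_nonneg k
    have he := eta_pos k
    rw [eta]
    push_cast
    set a : ℝ := 1000000 * ((k : ℝ) + 1) ^ 5 with ha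
    have ha1 : 1 ≤ a := by
      have h1 : (1 : ℝ) ≤ ((k : ℝ) + 1) ^ 5 := one_le_pow₀ (by linarith)
      rw [ha]
      linarith
    have ha0 : 0 < a := by linarith
    have h2 : (a ^ k)⁻¹ ≤ eta k := by
      rcases Nat.eq_zero_or_pos k with hk | hk
      · subst hk
        simp [eta]
      · have hk1 : (1 : ℝ) ≤ k := by exact_mod_cast hk
        refine le_trans ?_ ih
        apply inv_anti₀ (by positivity)
        apply pow_le_pow_left₀ (by positivity)
        rw [ha]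
        have h3 : (k : ℝ) ^ 5 ≤ ((k : ℝ) + 1) ^ 5 := pow_le_pow_left₀ hk0 (by linarith) 5
        linarith
    rw [pow_succ, mul_inv, div_eq_mul_inv]
    exact mul_le_mul_of_nonneg_right h2 (inv_nonneg.mpr ha0.le)

/-- TASK Z4 (helper14). `log ((5/eta d)^d) ≤ d (1.61 + d (13.82 + 5 log d))` and `log d ≤ d - 1`. -/
theorem numeric_bound (d : ℕ) (hd : 1 ≤ d) :
    Real.log ((5 / eta d) ^ d) / (1 / 32 * (Real.goldenRatio ^ d)⁻¹) + 1 ≤ 500 * (d : ℝ) ^ 3 * Real.goldenRatio ^ d := by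
  have hd1 : (1 : ℝ) ≤ d := by exact_mod_cast hd
  have hd0 : (0 : ℝ) < d := by linarith
  have he := eta_pos d
  have hφ1 : (1 : ℝ) ≤ Real.goldenRatio ^ d := one_le_pow₀ Real.one_lt_goldenRatio.le
  have hlog5 : Real.log 5 ≤ 1.61 := by
    rw [Real.log_le_iff_le_exp (by norm_num)]
    have h1 : Real.exp 1.61 = Real.exp 1 * Real.exp 0.61 := by
      rw [← Real.exp_add]
      norm_num
    have h2 : (2.7182818283 : ℝ) < Real.exp 1 := Real.exp_one_gt_d9
    have h3 : (1.8403 : ℝ) ≤ Real.exp 0.61 := by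
      have := Real.sum_le_exp_of_nonneg (by norm_num : (0 : ℝ) ≤ 0.61) 7
      refine le_trans ?_ this
      simp only [Finset.sum_range_succ, Finset.sum_range_zero, Nat.factorial]
      norm_num
    rw [h1]
    nlinarith
  have hlog10 : Real.log 1000000 ≤ 13.82 := by
    have h0 : Real.log 10 = Real.log 2 + Real.log 5 := by
      rw [← Real.log_mul (by norm_num) (by norm_num)]
      norm_num
    have h1 : Real.log 1000000 = 6 * Real.log 10 := by
      have : (1000000 : ℝ) = 10 ^ 6 := by norm_num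
      rw [this, Real.log_pow]
      norm_num
    have h2 := Real.log_two_lt_d9
    rw [h1, h0]
    linarith
  have hlogd : Real.log d ≤ d - 1 := Real.log_le_sub_one_of_pos hd0
  have h1 : Real.log ((5 / eta d) ^ d) ≤ 15.43 * (d : ℝ) ^ 3 := by
    rw [Real.log_pow, Real.log_div (by norm_num) he.ne']
    have h2 : -Real.log (eta d) ≤ d * (13.82 + 5 * (d - 1)) := by
      have h3 : Real.log (((1000000 * (d : ℝ) ^ 5) ^ d)⁻¹) ≤ Real.log (eta d) :=
        Real.log_le_log (by positivity) (eta_lower d hd)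
      rw [Real.log_inv, Real.log_pow, Real.log_mul (by norm_num) (by positivity), Real.log_pow]
        at h3
      have h4 : (d : ℝ) * (Real.log 1000000 + ((5 : ℕ) : ℝ) * Real.log d) ≤
          d * (13.82 + 5 * (d - 1)) := by
        apply mul_le_mul_of_nonneg_left _ hd0.le
        push_cast
        linarith
      have h6 := neg_le_neg h3
      rw [neg_neg] at h6
      exact h6.trans h4
    have h5 : (d : ℝ) * (Real.log 5 - Real.log (eta d)) ≤
        d * (1.61 + d * (13.82 + 5 * (d - 1))) := by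
      apply mul_le_mul_of_nonneg_left _ hd0.le
      linarith
    refine h5.trans ?_
    have h6 : (d : ℝ) ≤ (d : ℝ) ^ 3 := by nlinarith [mul_pos hd0 hd0]
    have h7 : (d : ℝ) ^ 2 ≤ (d : ℝ) ^ 3 := by nlinarith [mul_pos hd0 hd0]
    nlinarith
  have h2 : Real.log ((5 / eta d) ^ d) / (1 / 32 * (Real.goldenRatio ^ d)⁻¹) =
      32 * Real.log ((5 / eta d) ^ d) * Real.goldenRatio ^ d := by
    field_simp
  rw [h2]
  have hd3 : (1 : ℝ) ≤ (d : ℝ) ^ 3 := one_le_pow₀ hd1
  have h3 : 32 * Real.log ((5 / eta d) ^ d) * Real.goldenRatio ^ d ≤ 32 * (15.43 * (d : ℝ) ^ 3) * Real.goldenRatio ^ d := by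
    apply mul_le_mul_of_nonneg_right _ (by linarith)
    linarith
  have h4 : (1 : ℝ) ≤ (d : ℝ) ^ 3 * Real.goldenRatio ^ d := one_le_mul_of_one_le_of_one_le hd3 hφ1
  nlinarith

/-- TASK Z5 (helper14). -/
theorem numeric_lt (d : ℕ) (hd : 100 ≤ d) : 500 * (d : ℝ) ^ 3 * Real.goldenRatio ^ d < 2 ^ d := by
  have hφ0 : 0 < Real.goldenRatio := Real.goldenRatio_pos
  have h5 : √(5 : ℝ) < 2.2361 := by
    rw [Real.sqrt_lt' (by norm_num)]
    norm_num
  have hφ : Real.goldenRatio < 1.61805 := by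
    unfold Real.goldenRatio
    linarith
  induction d, hd using Nat.le_induction with
  | base =>
    have h1 : Real.goldenRatio ^ 100 ≤ (1.61805 : ℝ) ^ 100 := pow_le_pow_left₀ hφ0.le hφ.le 100
    have h2 : 500 * (100 : ℝ) ^ 3 * (1.61805 : ℝ) ^ 100 < 2 ^ 100 := by norm_num
    push_cast
    linarith
  | succ n hn ih =>
    have hn1 : (100 : ℝ) ≤ n := by exact_mod_cast hn
    push_cast
    have h1 : ((n : ℝ) + 1) ^ 3 ≤ 1.0304 * (n : ℝ) ^ 3 := by
      have h2 : (n : ℝ) + 1 ≤ 1.01 * n := by linarith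
      have h3 : ((n : ℝ) + 1) ^ 3 ≤ (1.01 * n) ^ 3 := pow_le_pow_left₀ (by linarith) h2 3
      refine h3.trans ?_
      have h4 : (0 : ℝ) ≤ (n : ℝ) ^ 3 := by positivity
      nlinarith
    have hp : 0 < Real.goldenRatio ^ n := pow_pos hφ0 n
    have hn3 : (0 : ℝ) < (n : ℝ) ^ 3 := by positivity
    calc 500 * ((n : ℝ) + 1) ^ 3 * Real.goldenRatio ^ (n + 1)
        = 500 * ((n : ℝ) + 1) ^ 3 * Real.goldenRatio ^ n * Real.goldenRatio := by ring
      _ ≤ 500 * (1.0304 * (n : ℝ) ^ 3) * Real.goldenRatio ^ n * Real.goldenRatio := by gcongr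
      _ ≤ 500 * (1.0304 * (n : ℝ) ^ 3) * Real.goldenRatio ^ n * 1.61805 := by gcongr
      _ = (1.0304 * 1.61805) * (500 * (n : ℝ) ^ 3 * Real.goldenRatio ^ n) := by ring
      _ ≤ 2 * (500 * (n : ℝ) ^ 3 * Real.goldenRatio ^ n) := by
          apply mul_le_mul_of_nonneg_right (by norm_num) (by positivity)
      _ < 2 * 2 ^ n := by linarith
      _ = 2 ^ (n + 1) := by ring

variable {Ω : Type} [MeasurableSpace Ω] {μ : Measure Ω}
variable {E : Type} [NormedAddCommGroup E] [NormedSpace ℝ E] [FiniteDimensional ℝ E]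
  [MeasurableSpace E] [BorelSpace E]
variable {F : Ω → E →ₗ[ℝ] ℝ}

/-- covering of the unit sphere by directions -/
theorem Dat.cover [SFinite μ] (h : Dat μ F) (hpos : ∀ b, b ≠ 0 → 0 < nm μ F b)
    (hd : 1 ≤ finrank ℝ E) :
    ∃ (n : ℕ) (w : Fin n → E), (n : ℝ) ≤ 500 * (finrank ℝ E : ℝ) ^ 3 * Real.goldenRatio ^ finrank ℝ E ∧
      ∃ η : ℝ, 0 < η ∧ ∀ x, nm μ F x = 1 → ∃ i, ∃ t : ℝ, 0 ≤ t ∧ nm μ F (x - t • w i) ≤ 1 - η := by
  set d := finrank ℝ E with hdd
  have hη := eta_pos d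
  obtain ⟨S, hS1, hS2, hS3⟩ := h.exists_net hpos hη (eta_le_one d)
  have : Nontrivial E := Module.nontrivial_of_finrank_pos (by omega : 0 < finrank ℝ E)
  obtain ⟨v, hv⟩ := exists_ne (0 : E)
  have hvN := hpos v hv
  have hSne : S.Nonempty := by
    obtain ⟨y, hy, -⟩ := hS2 ((nm μ F v)⁻¹ • v) (by
      rw [nm_smul, abs_of_pos (inv_pos.mpr hvN), inv_mul_cancel₀ hvN.ne'])
    exact ⟨y, hy⟩
  have hφ0 : 0 < Real.goldenRatio := Real.goldenRatio_pos
  have hV : 0 < 1 / 32 * (Real.goldenRatio ^ d)⁻¹ := by positivity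
  obtain ⟨n, w, hn, hw⟩ := greedy_cover hV
    (fun b y => ∃ t : ℝ, 0 ≤ t ∧ nm μ F (y - t • b) ≤ 1 - eta d) S (by
      intro I hI
      exact main_fraction d E F h hpos rfl E I id (fun i hi => hS1 i (hI hi))) hSne
  refine ⟨n, w, ?_, eta d / 2, by positivity, ?_⟩
  · refine hn.trans ((?_ : _ ≤ _).trans (numeric_bound d hd))
    have hcard : (0 : ℝ) < S.card := by exact_mod_cast hSne.card_pos
    have hlog := Real.log_le_log hcard hS3
    have := div_le_div_of_nonneg_right hlog hV.le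
    linarith
  · intro x hx
    obtain ⟨y, hy, hxy⟩ := hS2 x hx
    obtain ⟨i, t, ht, hyt⟩ := hw y hy
    refine ⟨i, t, ht, ?_⟩
    have h1 := h.nm_add_le (x - y) (y - t • w i)
    have h2 : x - y + (y - t • w i) = x - t • w i := by abel
    rw [h2] at h1
    linarith

end Pool.Agent.ZN
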