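import Pool.Agent.ZN.Basic

open MeasureTheory Set Module

namespace Pool.Agent.ZN

variable {E : Type} [NormedAddCommGroup E] [NormedSpace ℝ E] [FiniteDimensional ℝ E]
  [MeasurableSpace E] [BorelSpace E]
variable {Ω : Type} [MeasurableSpace Ω]
variable {μ : Measure Ω} {F : Ω → E →ₗ[ℝ] ℝ}
variable (lam : Measure E) [lam.IsAddHaarMeasure]

lemma poly_exp_bound {c t : ℝ} (hc : 0 < c) (ht : 0 < t) (k n : ℕ) :
    ∃ C : ℝ, 0 ≤ C ∧ ∀ x : ℝ, 0 ≤ x → x ^ k * Real.exp (-t * x) * (1 + x / c) ^ n ≤ C := by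
  refine ⟨c ^ k * ((k + n).factorial / (t * c) ^ (k + n) * Real.exp (t * c)), by positivity, ?_⟩
  intro x hx
  have h1 : x ≤ c * (1 + x / c) := by
    have : c * (1 + x / c) = c + x := by field_simp
    linarith
  have h2 : x ^ k ≤ c ^ k * (1 + x / c) ^ k := by
    rw [← mul_pow]
    exact pow_le_pow_left₀ hx h1 k
  have hx1 : 0 ≤ 1 + x / c := by positivity
  have h3 := Real.pow_div_factorial_le_exp (t * c * (1 + x / c)) (by positivity) (k + n)
  have h4 : t * c * (1 + x / c) = t * c + t * x := by field_simp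
  have h5 : (1 + x / c) ^ (k + n) ≤ (k + n).factorial / (t * c) ^ (k + n) *
      (Real.exp (t * c) * Real.exp (t * x)) := by
    rw [← Real.exp_add, ← h4]
    rw [mul_pow] at h3
    have hf : (0 : ℝ) < (k + n).factorial := by positivity
    have hp : 0 < (t * c) ^ (k + n) := by positivity
    rw [div_le_iff₀ hf] at h3
    rw [div_mul_eq_mul_div, le_div_iff₀ hp]
    linarith
  calc x ^ k * Real.exp (-t * x) * (1 + x / c) ^ n
      ≤ (c ^ k * (1 + x / c) ^ k) * Real.exp (-t * x) * (1 + x / c) ^ n := by gcongr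
    _ = c ^ k * Real.exp (-t * x) * (1 + x / c) ^ (k + n) := by rw [pow_add]; ring
    _ ≤ c ^ k * Real.exp (-t * x) * ((k + n).factorial / (t * c) ^ (k + n) *
      (Real.exp (t * c) * Real.exp (t * x))) := by gcongr
    _ = c ^ k * ((k + n).factorial / (t * c) ^ (k + n) * Real.exp (t * c)) *
        (Real.exp (-t * x) * Real.exp (t * x)) := by ring
    _ = _ := by
        rw [← Real.exp_add]
        simp

lemma Dat.integrable_poly (h : Dat μ F) (hpos : ∀ b, b ≠ 0 → 0 < nm μ F b) (k : ℕ) {t : ℝ}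
    (ht : 0 < t) : Integrable (fun b => nm μ F b ^ k * Real.exp (-t * nm μ F b)) lam := by
  obtain ⟨c, hc, hlow⟩ := h.exists_lower hpos
  obtain ⟨C, hC0, hC⟩ := poly_exp_bound hc ht k (finrank ℝ E + 1)
  have hint : Integrable (fun x : E => C * (1 + ‖x‖) ^ (-((finrank ℝ E : ℝ) + 1))) lam :=
    (integrable_one_add_norm (by linarith)).const_mul C
  refine hint.mono' ?_ ?_
  · have hcont : Continuous (fun b => nm μ F b ^ k * Real.exp (-t * nm μ F b)) := by
      have := h.continuous
      fun_prop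
    exact hcont.aestronglyMeasurable
  · filter_upwards with b
    have hN := nm_nonneg (μ := μ) (F := F) b
    rw [Real.norm_of_nonneg (by positivity)]
    have hb := hC (nm μ F b) hN
    have h1 : (1 + ‖b‖) ^ (finrank ℝ E + 1) ≤ (1 + nm μ F b / c) ^ (finrank ℝ E + 1) := by
      apply pow_le_pow_left₀ (by positivity)
      have : ‖b‖ ≤ nm μ F b / c := by
        rw [le_div_iff₀ hc]
        linarith [hlow b]
      linarith
    have h2 : (1 + ‖b‖) ^ (-((finrank ℝ E : ℝ) + 1)) = ((1 + ‖b‖) ^ (finrank ℝ E + 1))⁻¹ := by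
      rw [Real.rpow_neg (by positivity)]
      congr 1
      exact_mod_cast Real.rpow_natCast (1 + ‖b‖) (finrank ℝ E + 1)
    rw [h2, ← div_eq_mul_inv, le_div_iff₀ (by positivity)]
    refine le_trans ?_ hb
    gcongr

lemma Dat.integrable_exp (h : Dat μ F) (hpos : ∀ b, b ≠ 0 → 0 < nm μ F b) {t : ℝ}
    (ht : 0 < t) : Integrable (fun b => Real.exp (-t * nm μ F b)) lam := by
  simpa using h.integrable_poly lam hpos 0 ht

/-- partition function -/
noncomputable def ZZ (μ : Measure Ω) (F : Ω → E →ₗ[ℝ] ℝ) : ℝ := ∫ b, Real.exp (-nm μ F b) ∂lam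

lemma Dat.integrable_poly_one (h : Dat μ F) (hpos : ∀ b, b ≠ 0 → 0 < nm μ F b) (k : ℕ) :
    Integrable (fun b => nm μ F b ^ k * Real.exp (-nm μ F b)) lam := by
  simpa using h.integrable_poly lam hpos k one_pos

lemma Dat.integrable_exp_one (h : Dat μ F) (hpos : ∀ b, b ≠ 0 → 0 < nm μ F b) :
    Integrable (fun b => Real.exp (-nm μ F b)) lam := by
  simpa using h.integrable_poly lam hpos 0 one_pos

/-- anything measurable bounded by `A + B N + C N^2` times the weight is integrable -/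
lemma Dat.integrable_of_le (h : Dat μ F) (hpos : ∀ b, b ≠ 0 → 0 < nm μ F b) {f : E → ℝ}
    (hf : Measurable f) (A B C : ℝ)
    (hb : ∀ b, |f b| ≤ A + B * nm μ F b + C * nm μ F b ^ 2) :
    Integrable (fun b => f b * Real.exp (-nm μ F b)) lam := by
  have h0 := (h.integrable_exp_one lam hpos).const_mul A
  have h1 := (h.integrable_poly_one lam hpos 1).const_mul B
  have h2 := (h.integrable_poly_one lam hpos 2).const_mul C
  refine ((h0.add h1).add h2).mono' ?_ ?_
  · have hm : Measurable (nm μ F) := h.continuous.measurable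
    exact (hf.mul (Real.measurable_exp.comp hm.neg)).aestronglyMeasurable
  · filter_upwards with b
    rw [norm_mul, Real.norm_eq_abs, Real.norm_of_nonneg (Real.exp_pos _).le]
    have := mul_le_mul_of_nonneg_right (hb b) (Real.exp_pos (-nm μ F b)).le
    simp only [Pi.add_apply]
    refine this.trans (le_of_eq ?_)
    ring

lemma Dat.ZZ_pos (h : Dat μ F) (hpos : ∀ b, b ≠ 0 → 0 < nm μ F b) : 0 < ZZ lam μ F := by
  unfold ZZ
  rw [integral_pos_iff_support_of_nonneg (fun _ => (Real.exp_pos _).le) (h.integrable_exp_one lam hpos)]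
  have : Function.support (fun b => Real.exp (-nm μ F b)) = univ := by
    ext b
    simp [(Real.exp_pos _).ne']
  rw [this]
  exact (NeZero.ne lam) |> fun hne => by
    rw [pos_iff_ne_zero]
    exact fun h0 => hne (Measure.measure_univ_eq_zero.mp h0)

/-- scaling: `∫ exp(-t N) = t^{-m} Z` -/
lemma integral_exp_scale {t : ℝ} (ht : 0 < t) :
    ∫ b, Real.exp (-(t * nm μ F b)) ∂lam = (t ^ finrank ℝ E)⁻¹ * ZZ lam μ F := by
  have := Measure.integral_comp_smul_of_nonneg lam (fun b => Real.exp (-nm μ F b)) t (hR := ht.le)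
  simp only [nm_smul, abs_of_pos ht, smul_eq_mul] at this
  rw [this, ZZ]

/-- exponential moment -/
lemma Dat.moment_bound (h : Dat μ F) (hpos : ∀ b, b ≠ 0 → 0 < nm μ F b) (hm : 1 ≤ finrank ℝ E) :
    (∫ b, nm μ F b * Real.exp (-nm μ F b) ∂lam) ≤ 4 * finrank ℝ E * ZZ lam μ F ∧
    (∫ b, nm μ F b ^ 2 * Real.exp (-nm μ F b) ∂lam) ≤ 16 * (finrank ℝ E) ^ 2 * ZZ lam μ F := by
  set m := finrank ℝ E with hmdef
  set q : ℝ := 1 / ((m : ℝ) + 1) with hq
  have hm0 : (0 : ℝ) < m := by exact_mod_cast hm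
  have hm1 : (1 : ℝ) ≤ m := by exact_mod_cast hm
  have hq0 : 0 < q := by positivity
  have hq1 : q < 1 := by
    rw [hq, div_lt_one (by positivity)]
    linarith
  have hZ := h.ZZ_pos lam hpos
  -- the exponential integral
  have hexp : ∫ b, Real.exp (-((1 - q) * nm μ F b)) ∂lam = ((1 - q) ^ m)⁻¹ * ZZ lam μ F :=
    integral_exp_scale lam (by linarith)
  have hle : ((1 - q) ^ m)⁻¹ ≤ Real.exp 1 := by
    have h1 : (1 - q)⁻¹ = 1 + 1 / m := by
      have h11 : 1 - q = m / (m + 1) := by
        rw [hq]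
        field_simp
        ring
      rw [h11, inv_div]
      field_simp
    rw [← inv_pow, h1]
    calc (1 + 1 / (m : ℝ)) ^ m ≤ (Real.exp (1 / m)) ^ m := by
          apply pow_le_pow_left₀ (by positivity)
          have := Real.add_one_le_exp (1 / (m : ℝ))
          linarith
      _ = Real.exp 1 := by
          rw [← Real.exp_nat_mul]
          congr 1
          field_simp
  have he : Real.exp 1 ≤ 3 := by
    have := Real.exp_one_lt_d9
    linarith
  have hI0 := h.integrable_exp_one lam hpos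
  have hI1 : Integrable (fun b => nm μ F b * Real.exp (-nm μ F b)) lam := by
    simpa using h.integrable_poly_one lam hpos 1
  have hI2 := h.integrable_poly_one lam hpos 2
  have hIq : Integrable (fun b => Real.exp (-((1 - q) * nm μ F b))) lam := by
    have := h.integrable_exp lam hpos (t := 1 - q) (by linarith)
    refine this.congr (Filter.Eventually.of_forall fun b => ?_)
    simp only [neg_mul]
  have hpt : ∀ b, Real.exp (-nm μ F b) + q * (nm μ F b * Real.exp (-nm μ F b)) +
      q ^ 2 / 2 * (nm μ F b ^ 2 * Real.exp (-nm μ F b)) ≤ Real.exp (-((1 - q) * nm μ F b)) := by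
    intro b
    have hN := nm_nonneg (μ := μ) (F := F) b
    have h1 := Real.quadratic_le_exp_of_nonneg (x := q * nm μ F b) (by positivity)
    have h2 : Real.exp (-((1 - q) * nm μ F b)) = Real.exp (-nm μ F b) * Real.exp (q * nm μ F b) := by
      rw [← Real.exp_add]
      congr 1
      ring
    rw [h2]
    have := mul_le_mul_of_nonneg_left h1 (Real.exp_pos (-nm μ F b)).le
    nlinarith
  have hint : ZZ lam μ F + q * (∫ b, nm μ F b * Real.exp (-nm μ F b) ∂lam) +
      q ^ 2 / 2 * (∫ b, nm μ F b ^ 2 * Real.exp (-nm μ F b) ∂lam) ≤ 3 * ZZ lam μ F := by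
    calc _ = ∫ b, (Real.exp (-nm μ F b) + q * (nm μ F b * Real.exp (-nm μ F b)) +
      q ^ 2 / 2 * (nm μ F b ^ 2 * Real.exp (-nm μ F b))) ∂lam := by
          have e1 : ∫ b, (Real.exp (-nm μ F b) + q * (nm μ F b * Real.exp (-nm μ F b)) +
              q ^ 2 / 2 * (nm μ F b ^ 2 * Real.exp (-nm μ F b))) ∂lam =
              (∫ b, (Real.exp (-nm μ F b) + q * (nm μ F b * Real.exp (-nm μ F b))) ∂lam) +
              ∫ b, q ^ 2 / 2 * (nm μ F b ^ 2 * Real.exp (-nm μ F b)) ∂lam :=
            integral_add (hI0.add (hI1.const_mul q)) (hI2.const_mul (q ^ 2 / 2))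
          have e2 : ∫ b, (Real.exp (-nm μ F b) + q * (nm μ F b * Real.exp (-nm μ F b))) ∂lam =
              (∫ b, Real.exp (-nm μ F b) ∂lam) +
              ∫ b, q * (nm μ F b * Real.exp (-nm μ F b)) ∂lam :=
            integral_add hI0 (hI1.const_mul q)
          rw [e1, e2, integral_const_mul, integral_const_mul, ZZ]
      _ ≤ ∫ b, Real.exp (-((1 - q) * nm μ F b)) ∂lam := by
          apply integral_mono ((hI0.add (hI1.const_mul q)).add (hI2.const_mul (q ^ 2 / 2))) hIq
          exact hpt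
      _ = _ := hexp
      _ ≤ 3 * ZZ lam μ F := by
          apply mul_le_mul_of_nonneg_right (hle.trans he) hZ.le
  have hA : 0 ≤ ∫ b, nm μ F b * Real.exp (-nm μ F b) ∂lam :=
    integral_nonneg fun b => mul_nonneg (nm_nonneg _) (Real.exp_pos _).le
  have hB : 0 ≤ ∫ b, nm μ F b ^ 2 * Real.exp (-nm μ F b) ∂lam :=
    integral_nonneg fun b => mul_nonneg (sq_nonneg _) (Real.exp_pos _).le
  set A := ∫ b, nm μ F b * Real.exp (-nm μ F b) ∂lam
  set B := ∫ b, nm μ F b ^ 2 * Real.exp (-nm μ F b) ∂lam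
  have hqm : q * (2 * m) ≥ 1 := by
    rw [hq, ge_iff_le, div_mul_eq_mul_div, le_div_iff₀ (by positivity)]
    linarith
  constructor
  · have h1 : q * A ≤ 2 * ZZ lam μ F := by nlinarith
    -- A ≤ (2m) q A ≤ 4 m Z
    calc A = 1 * A := by ring
      _ ≤ (q * (2 * m)) * A := mul_le_mul_of_nonneg_right hqm hA
      _ = (2 * m) * (q * A) := by ring
      _ ≤ (2 * m) * (2 * ZZ lam μ F) := mul_le_mul_of_nonneg_left h1 (by positivity)
      _ = _ := by ring
  · have h1 : q ^ 2 / 2 * B ≤ 2 * ZZ lam μ F := by nlinarith [mul_nonneg hq0.le hA]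
    calc B = 1 ^ 2 * B := by ring
      _ ≤ (q * (2 * m)) ^ 2 * B := by
          apply mul_le_mul_of_nonneg_right _ hB
          exact pow_le_pow_left₀ zero_le_one hqm 2
      _ = (8 * m ^ 2) * (q ^ 2 / 2 * B) := by ring
      _ ≤ (8 * m ^ 2) * (2 * ZZ lam μ F) := mul_le_mul_of_nonneg_left h1 (by positivity)
      _ = _ := by ring

end Pool.Agent.ZN
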