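import Pool.Agent.ZN.Term

open MeasureTheory Set Module

namespace Pool.Agent.ZN

/-- averaging lemma -/
lemma avg_exists {X : Type} [MeasurableSpace X] (ν : Measure X) {w : X → ℝ}
    (hw0 : ∀ x, 0 ≤ w x) (hwi : Integrable w ν) (hwp : 0 < ∫ x, w x ∂ν)
    {ι : Type} (I : Finset ι) (S : ι → Set X) [∀ x i, Decidable (x ∈ S i)]
    (hS : ∀ i ∈ I, MeasurableSet (S i))
    (a : ι → ℝ) (ha : ∀ i ∈ I, a i * ∫ x, w x ∂ν ≤ ∫ x, (S i).indicator w x ∂ν) :
    ∃ x, 0 < w x ∧ ∑ i ∈ I, a i ≤ ((I.filter fun i => x ∈ S i).card : ℝ) := by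
  by_contra hcon
  push Not at hcon
  set T := ∑ i ∈ I, a i with hT
  have hex : ∃ x, 0 < w x := by
    by_contra h0
    push Not at h0
    have : ∫ x, w x ∂ν ≤ 0 := integral_nonpos h0
    linarith
  have hT0 : 0 < T := by
    obtain ⟨x, hx⟩ := hex
    exact lt_of_le_of_lt (by positivity) (hcon x hx)
  set c : ℝ := ((⌈T⌉₊ - 1 : ℕ) : ℝ) with hc
  have hceil : 0 < ⌈T⌉₊ := Nat.ceil_pos.mpr hT0
  have hcT : c < T := by
    rw [hc, ← Nat.lt_ceil]
    omega
  have hle : ∀ x, ∑ i ∈ I, (S i).indicator w x ≤ c * w x := by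
    intro x
    have h1 : ∑ i ∈ I, (S i).indicator w x = ((I.filter fun i => x ∈ S i).card : ℝ) * w x := by
      rw [Finset.card_filter]
      push_cast
      rw [Finset.sum_mul]
      apply Finset.sum_congr rfl
      intro i _
      by_cases hx : x ∈ S i
      · rw [indicator_of_mem hx, if_pos hx, one_mul]
      · rw [indicator_of_notMem hx, if_neg hx, zero_mul]
    rw [h1]
    rcases (hw0 x).eq_or_lt with h2 | h2
    · rw [← h2]
      simp
    · apply mul_le_mul_of_nonneg_right _ h2.le
      have h3 := hcon x h2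
      rw [← Nat.lt_ceil] at h3
      rw [hc]
      exact_mod_cast (by omega : (I.filter fun i => x ∈ S i).card ≤ ⌈T⌉₊ - 1)
  have hint : ∀ i ∈ I, Integrable (fun x => (S i).indicator w x) ν :=
    fun i hi => hwi.indicator (hS i hi)
  have h4 : T * ∫ x, w x ∂ν ≤ c * ∫ x, w x ∂ν := by
    calc T * ∫ x, w x ∂ν = ∑ i ∈ I, a i * ∫ x, w x ∂ν := by rw [hT, Finset.sum_mul]
      _ ≤ ∑ i ∈ I, ∫ x, (S i).indicator w x ∂ν := Finset.sum_le_sum ha
      _ = ∫ x, ∑ i ∈ I, (S i).indicator w x ∂ν := (integral_finsetSum I hint).symm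
      _ ≤ ∫ x, c * w x ∂ν := integral_mono (integrable_finsetSum I hint) (hwi.const_mul c) hle
      _ = c * ∫ x, w x ∂ν := integral_const_mul _ _
  nlinarith

/-- the thresholds -/
noncomputable def eta : ℕ → ℝ
  | 0 => 1
  | (k + 1) => eta k / (1000000 * ((k : ℝ) + 1) ^ 5)

lemma eta_pos : ∀ k, 0 < eta k
  | 0 => by simp [eta]
  | (k + 1) => by
    have := eta_pos k
    rw [eta]
    positivity

lemma eta_succ_le (k : ℕ) : eta (k + 1) ≤ eta k / 1000000 := by
  have := eta_pos k
  rw [eta]
  apply div_le_div_of_nonneg_left this.le (by norm_num)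
  have : (1 : ℝ) ≤ ((k : ℝ) + 1) ^ 5 := one_le_pow₀ (by linarith [(Nat.cast_nonneg k : (0:ℝ) ≤ k)])
  linarith

lemma eta_le_one : ∀ k, eta k ≤ 1
  | 0 => by simp [eta]
  | (k + 1) => by
    have h1 := eta_succ_le k
    have h2 := eta_le_one k
    linarith


lemma golden_tangent (m : ℕ) {p : ℝ} (hp0 : 0 ≤ p) (hp1 : p ≤ 1) :
    (Real.goldenRatio ^ m)⁻¹ * (1 + m * (p - (2 - Real.goldenRatio)) / Real.goldenRatio) ≤ ((2 - p) ^ m)⁻¹ := by
  have hφ1 : 1 < Real.goldenRatio := Real.one_lt_goldenRatio
  have hφ2 : Real.goldenRatio < 2 := Real.goldenRatio_lt_two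
  have hφ0 : 0 < Real.goldenRatio := Real.goldenRatio_pos
  set u : ℝ := (p - (2 - Real.goldenRatio)) / Real.goldenRatio with hu
  have hu1 : -1 ≤ u := by
    rw [hu, le_div_iff₀ hφ0]
    linarith
  have h2p : 2 - p = Real.goldenRatio * (1 - u) := by
    rw [hu]
    field_simp
    ring
  have hu2 : 0 < 1 - u := by
    by_contra hcon
    push Not at hcon
    have : Real.goldenRatio * (1 - u) ≤ 0 := mul_nonpos_of_nonneg_of_nonpos hφ0.le hcon
    linarith
  rw [h2p, mul_pow, mul_inv]
  apply mul_le_mul_of_nonneg_left _ (by positivity)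
  have h3 : 1 + (m : ℝ) * (p - (2 - Real.goldenRatio)) / Real.goldenRatio = 1 + m * u := by
    rw [hu, mul_div_assoc]
  rw [h3]
  calc 1 + (m : ℝ) * u ≤ (1 + u) ^ m := one_add_mul_le_pow (by linarith) m
    _ ≤ ((1 - u)⁻¹) ^ m := by
        apply pow_le_pow_left₀ (by linarith)
        rw [le_inv_comm₀ (by
          rcases hu1.eq_or_lt with h | h
          · exfalso
            have h4 : 2 - p = Real.goldenRatio * 2 := by rw [h2p, ← h]; ring
            linarith
          · linarith) hu2]
        rw [← one_div, le_div_iff₀ (by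
          rcases hu1.eq_or_lt with h | h
          · exfalso
            have h4 : 2 - p = Real.goldenRatio * 2 := by rw [h2p, ← h]; ring
            linarith
          · linarith)]
        nlinarith [sq_nonneg u]
    _ = ((1 - u) ^ m)⁻¹ := by rw [inv_pow]

variable {Ω : Type} [MeasurableSpace Ω] {μ : Measure Ω}

section prep
variable {E : Type} [NormedAddCommGroup E] [NormedSpace ℝ E] [FiniteDimensional ℝ E]
  [MeasurableSpace E] [BorelSpace E]
variable {F : Ω → E →ₗ[ℝ] ℝ}
variable (lam : Measure E) [lam.IsAddHaarMeasure]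

lemma Dat.first_moment_pos (h : Dat μ F) (hpos : ∀ b, b ≠ 0 → 0 < nm μ F b)
    (hm : 1 ≤ finrank ℝ E) : 0 < ∫ b, nm μ F b * Real.exp (-nm μ F b) ∂lam := by
  have hI1 : Integrable (fun b => nm μ F b * Real.exp (-nm μ F b)) lam := by
    simpa using h.integrable_poly_one lam hpos 1
  rw [integral_pos_iff_support_of_nonneg
    (fun b => mul_nonneg (nm_nonneg _) (Real.exp_pos _).le) hI1]
  have hsup : ({0}ᶜ : Set E) ⊆ Function.support fun b => nm μ F b * Real.exp (-nm μ F b) := by
    intro b hb
    have hb' : b ≠ 0 := hb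
    have := hpos b hb'
    rw [Function.mem_support]
    positivity
  refine lt_of_lt_of_le ?_ (measure_mono hsup)
  have : Nontrivial E := Module.nontrivial_of_finrank_pos (by omega : 0 < finrank ℝ E)
  obtain ⟨v, hv⟩ := exists_ne (0 : E)
  exact isOpen_compl_singleton.measure_pos lam ⟨v, hv⟩

end prep

/-- MAIN: in every finite family of unit vectors a fraction `Real.goldenRatio^{-m}/32` can be shortened
simultaneously by one direction. -/
theorem main_fraction [SFinite μ] : ∀ (m : ℕ) (E : Type) [NormedAddCommGroup E] [NormedSpace ℝ E]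
    [FiniteDimensional ℝ E] [MeasurableSpace E] [BorelSpace E] (F : Ω → E →ₗ[ℝ] ℝ),
    Dat μ F → (∀ b, b ≠ 0 → 0 < nm μ F b) → finrank ℝ E = m →
    ∀ (ι : Type) (I : Finset ι) (y : ι → E), (∀ i ∈ I, nm μ F (y i) = 1) →
    ∃ b : E, ∃ G : Finset ι, G ⊆ I ∧ 1 / 32 * (Real.goldenRatio ^ m)⁻¹ * (I.card : ℝ) ≤ (G.card : ℝ) ∧
      ∀ i ∈ G, ∃ t : ℝ, 0 ≤ t ∧ nm μ F (y i - t • b) ≤ 1 - eta m := by
  intro m
  induction m with
  | zero =>
    intro E _ _ _ _ _ F h hpos hfr ι I y hy
    have hI : I = ∅ := by
      rw [Finset.eq_empty_iff_forall_notMem]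
      intro i hi
      have h1 := hy i hi
      have : Subsingleton E := Module.finrank_zero_iff.mp hfr
      rw [Subsingleton.elim (y i) 0, nm_zero] at h1
      norm_num at h1
    refine ⟨0, ∅, by simp, by simp [hI], by simp⟩
  | succ k ih =>
    intro E _ _ _ _ _ F h hpos hfr ι I y hy
    classical
    set lam : Measure E := Measure.addHaar with hlam
    have hm : 1 ≤ finrank ℝ E := by omega
    set m : ℝ := (finrank ℝ E : ℝ) with hmd
    have hmk : m = (k : ℝ) + 1 := by
      rw [hmd, hfr]
      push_cast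
      ring
    have hm1 : 1 ≤ m := by
      rw [hmd]
      exact_mod_cast hm
    have hek := eta_pos k
    have hek1 := eta_le_one k
    set ε : ℝ := eta k / (1280 * m ^ 3) with hε
    have hε0 : 0 < ε := by positivity
    set R : ℝ := 40 * m ^ 2 with hR
    set δ : ℝ := 4 * m * ε with hδ
    have hRδ : R * δ ≤ 1 / 8 := by
      rw [hR, hδ, hε]
      have : 40 * m ^ 2 * (4 * m * (eta k / (1280 * m ^ 3))) = eta k / 8 := by
        field_simp
        norm_num
      rw [this]
      linarith
    have hZ := h.ZZ_pos lam hpos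
    set A : ℝ := ∫ b, nm μ F b * Real.exp (-nm μ F b) ∂lam with hA
    have hA0 : 0 < A := h.first_moment_pos lam hpos hm
    obtain ⟨hM1, -⟩ := h.moment_bound lam hpos hm
    set C : ι → Set Ω := fun i => {ω | ε * rho lam μ F ω < |F ω (y i)|} with hC
    have hCm : ∀ i, MeasurableSet (C i) := by
      intro i
      exact measurableSet_lt ((h.measurable_rho lam).const_mul ε)
        (measurable_abs.comp (h.meas (y i)))
    set p : ι → ℝ := fun i => (∫ b, nm (μ.restrict (C i)) F b * Real.exp (-nm μ F b) ∂lam) / A with hp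
    have hI1 : Integrable (fun b => nm μ F b * Real.exp (-nm μ F b)) lam := by
      simpa using h.integrable_poly_one lam hpos 1
    have hIC : ∀ D : Set Ω, Integrable (fun b => nm (μ.restrict D) F b * Real.exp (-nm μ F b)) lam := by
      intro D
      apply h.integrable_of_le lam hpos (h.restrict D).continuous.measurable 0 1 0
      intro b
      rw [abs_of_nonneg (nm_nonneg _)]
      have := h.nm_restrict_le D b
      linarith
    have hCA : ∀ D : Set Ω, (∫ b, nm (μ.restrict D) F b * Real.exp (-nm μ F b) ∂lam) ≤ A := by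
      intro D
      apply integral_mono (hIC D) hI1
      intro b
      exact mul_le_mul_of_nonneg_right (h.nm_restrict_le D b) (Real.exp_pos _).le
    have hp0 : ∀ i, 0 ≤ p i := fun i => div_nonneg
      (integral_nonneg fun b => mul_nonneg (nm_nonneg _) (Real.exp_pos _).le) hA0.le
    have hp1 : ∀ i, p i ≤ 1 := fun i => by
      rw [hp]
      simp only
      rw [div_le_one hA0]
      exact hCA _
    have hpA : ∀ i, (∫ b, nm (μ.restrict (C i)) F b * Real.exp (-nm μ F b) ∂lam) = p i * A :=
      fun i => by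
        rw [hp]
        simp only
        rw [div_mul_cancel₀ _ hA0.ne']
    have hJδ : ∀ i, nm (μ.restrict (C i)ᶜ) F (y i) ≤ δ := by
      intro i
      obtain ⟨hri, hre⟩ := h.integral_rho lam hpos (C i)ᶜ
      have h1 : nm (μ.restrict (C i)ᶜ) F (y i) ≤ ∫ ω in (C i)ᶜ, ε * rho lam μ F ω ∂μ := by
        unfold nm
        apply setIntegral_mono_on (h.int (y i)).abs.integrableOn (hri.const_mul ε) (hCm i).compl
        intro ω hω
        simp only [hC, mem_compl_iff, mem_ofPred_eq, not_lt] at hω
        exact hω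
      rw [integral_const_mul] at h1
      have h2 : (∫ ω in (C i)ᶜ, rho lam μ F ω ∂μ) ≤ 4 * m := by
        have h3 := hCA (C i)ᶜ
        rw [← hre] at h3
        have h4 := h3.trans hM1
        exact le_of_mul_le_mul_right h4 hZ
      calc nm (μ.restrict (C i)ᶜ) F (y i) ≤ ε * ∫ ω in (C i)ᶜ, rho lam μ F ω ∂μ := h1
        _ ≤ ε * (4 * m) := mul_le_mul_of_nonneg_left h2 hε0.le
        _ = δ := by rw [hδ]; ring
    rcases le_total 0 (∑ i ∈ I, (p i - (2 - Real.goldenRatio))) with hcase | hcase
    · -- terminal step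
      obtain ⟨b, -, hb⟩ := avg_exists lam (w := fun b => Real.exp (-nm μ F b))
        (fun b => (Real.exp_pos _).le) (h.integrable_exp_one lam hpos) hZ I
        (fun i => goodSet μ F ((h.restrict (C i)).lf (y i)) (C i) R) (by
          intro i _
          apply MeasurableSet.inter
          · exact measurableSet_le measurable_const
              ((((h.restrict (C i)).lf (y i)).continuous_of_finiteDimensional).sub
                (h.restrict (C i)ᶜ).continuous).measurable
          · exact measurableSet_le h.continuous.measurable measurable_const)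
        (fun i => 1 / 32 * ((2 - p i) ^ finrank ℝ E)⁻¹) (by
          intro i hi
          have := h.terminal lam hpos hm (hCm i) (hp0 i) (hp1 i) (hpA i) (le_refl R) (hy i hi)
            (hJδ i) hRδ
          rw [mul_assoc]
          exact this)
      refine ⟨b, I.filter fun i => b ∈ goodSet μ F ((h.restrict (C i)).lf (y i)) (C i) R,
        Finset.filter_subset _ _, ?_, ?_⟩
      · refine le_trans ?_ hb
        have h5 : ∀ i ∈ I, 1 / 32 * ((Real.goldenRatio ^ (k + 1))⁻¹ * (1 + (k + 1 : ℕ) * (p i - (2 - Real.goldenRatio)) / Real.goldenRatio)) ≤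
            1 / 32 * ((2 - p i) ^ finrank ℝ E)⁻¹ := by
          intro i _
          rw [hfr]
          apply mul_le_mul_of_nonneg_left (golden_tangent (k + 1) (hp0 i) (hp1 i)) (by norm_num)
        refine le_trans ?_ (Finset.sum_le_sum h5)
        rw [← Finset.mul_sum, ← Finset.mul_sum, Finset.sum_add_distrib]
        simp only [Finset.sum_const, nsmul_eq_mul, mul_one]
        rw [← Finset.sum_div, ← Finset.mul_sum, mul_assoc]
        apply mul_le_mul_of_nonneg_left _ (by norm_num)
        have hφ0 : 0 < Real.goldenRatio := Real.goldenRatio_pos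
        apply mul_le_mul_of_nonneg_left _ (by positivity)
        have : 0 ≤ ((k + 1 : ℕ) : ℝ) * (∑ i ∈ I, (p i - (2 - Real.goldenRatio))) / Real.goldenRatio := by positivity
        linarith
      · intro i hi
        rw [Finset.mem_filter] at hi
        refine ⟨ε / (8 * (R + 1)), by positivity, ?_⟩
        have h6 := h.good_shortens lam hpos hε0 (by positivity : 0 ≤ R) (hCm i)
          (fun ω hω => hω) hi.2
        rw [hy i hi.1] at h6
        refine h6.trans ?_
        have h7 : eta (k + 1) ≤ ε / (16 * (R + 1)) := by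
          rw [eta, hε, hR, div_div, ← hmk]
          apply div_le_div_of_nonneg_left hek.le (by positivity)
          have h8 : m ^ 3 ≤ m ^ 5 := pow_le_pow_right₀ hm1 (by norm_num)
          nlinarith [pow_pos (by linarith : 0 < m) 3]
        linarith
    · -- restriction step
      obtain ⟨hri0, hre0⟩ := h.integral_rho lam hpos univ
      rw [Measure.restrict_univ] at hri0 hre0
      have hrp : 0 < ∫ ω, rho lam μ F ω ∂μ := by
        have : 0 < (∫ ω, rho lam μ F ω ∂μ) * ZZ lam μ F := by
          rw [hre0]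
          exact hA0
        by_contra hcon
        push Not at hcon
        have h0 := mul_nonpos_of_nonpos_of_nonneg hcon hZ.le
        linarith
      obtain ⟨ω₀, hω0, hω⟩ := avg_exists μ (w := rho lam μ F)
        (fun ω => rho_nonneg lam h hpos ω) hri0 hrp I (fun i => (C i)ᶜ)
        (fun i _ => (hCm i).compl) (fun i => 1 - p i) (by
          intro i _
          obtain ⟨hri, hre⟩ := h.integral_rho lam hpos (C i)ᶜ
          obtain ⟨hri', hre'⟩ := h.integral_rho lam hpos (C i)
          rw [integral_indicator (hCm i).compl]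
          have hadd := integral_add_compl (hCm i) hri0
          have h1 : (∫ ω in C i, rho lam μ F ω ∂μ) * ZZ lam μ F = p i * A := by
            rw [hre', hpA]
          have h2 : (∫ ω, rho lam μ F ω ∂μ) * ZZ lam μ F = A := hre0
          have h3 : ((1 - p i) * ∫ ω, rho lam μ F ω ∂μ) * ZZ lam μ F =
              (∫ ω in (C i)ᶜ, rho lam μ F ω ∂μ) * ZZ lam μ F := by
            have h4 : (∫ ω in (C i)ᶜ, rho lam μ F ω ∂μ) =
                (∫ ω, rho lam μ F ω ∂μ) - ∫ ω in C i, rho lam μ F ω ∂μ := by linarith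
            rw [h4]
            linear_combination (-(p i)) * h2 + h1
          exact (mul_right_cancel₀ hZ.ne' h3).le)
      set I' : Finset ι := I.filter fun i => ω₀ ∈ (C i)ᶜ with hI'
      obtain ⟨v, hv0, hv⟩ := h.exists_large lam hpos hm ω₀ hω0
      -- the subspace
      set K : Submodule ℝ E := LinearMap.ker (F ω₀) with hK
      have hne : F ω₀ ≠ 0 := by
        intro h0
        apply hv0
        rw [h0]
        rfl
      have hfrK : finrank ℝ K = k := by
        have h1 : finrank ℝ K + 1 = finrank ℝ E := Module.Dual.finrank_ker_add_one_of_ne_zero hne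
        omega
      set F' : Ω → K →ₗ[ℝ] ℝ := fun ω => (F ω).comp K.subtype with hF'
      have h' : Dat μ F' := ⟨fun b => h.meas (b : E), fun b => h.int (b : E)⟩
      have hnm : ∀ b : K, nm μ F' b = nm μ F (b : E) := fun b => rfl
      have hpos' : ∀ b : K, b ≠ 0 → 0 < nm μ F' b := by
        intro b hb
        rw [hnm]
        apply hpos
        exact fun h0 => hb (Subtype.ext h0)
      set y' : ι → K := fun i => ⟨y i - (F ω₀ (y i) / F ω₀ v) • v, by
        rw [hK, LinearMap.mem_ker, map_sub, map_smul, smul_eq_mul, div_mul_cancel₀ _ hv0, sub_self]⟩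
        with hy'
      set e : ℝ := 8 * m * ε with he
      have he1 : e ≤ eta k / 160 := by
        rw [he, hε]
        have h1 : 8 * m * (eta k / (1280 * m ^ 3)) = eta k / (160 * m ^ 2) := by
          field_simp
          norm_num
        rw [h1]
        apply div_le_div_of_nonneg_left hek.le (by norm_num)
        nlinarith
      have he0 : 0 < e := by positivity
      have hdiff : ∀ i ∈ I', nm μ F (y i - (y' i : E)) ≤ e := by
        intro i hi
        rw [hI', Finset.mem_filter] at hi
        have h1 : |F ω₀ (y i)| ≤ ε * rho lam μ F ω₀ := by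
          have := hi.2
          simp only [hC, mem_compl_iff, mem_ofPred_eq, not_lt] at this
          exact this
        have h2 : y i - (y' i : E) = (F ω₀ (y i) / F ω₀ v) • v := by
          simp only [hy']
          abel
        rw [h2, nm_smul, abs_div]
        have h3 : 0 < |F ω₀ v| := abs_pos.mpr hv0
        rw [div_mul_eq_mul_div, div_le_iff₀ h3]
        calc |F ω₀ (y i)| * nm μ F v ≤ (ε * rho lam μ F ω₀) * nm μ F v :=
              mul_le_mul_of_nonneg_right h1 (nm_nonneg _)
          _ = ε * (nm μ F v * rho lam μ F ω₀) := by ring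
          _ ≤ ε * (8 * m * |F ω₀ v|) := mul_le_mul_of_nonneg_left hv hε0.le
          _ = e * |F ω₀ v| := by rw [he]; ring
      have hny' : ∀ i ∈ I', 1 - e ≤ nm μ F (y' i : E) ∧ nm μ F (y' i : E) ≤ 1 + e := by
        intro i hi
        have h1 := hdiff i hi
        have h2 := h.abs_nm_sub (y i) (y' i : E)
        rw [hI', Finset.mem_filter] at hi
        rw [hy i hi.1] at h2
        have h3 := abs_le.mp (h2.trans h1)
        constructor <;> linarith
      obtain ⟨b, G, hG, hGc, hGs⟩ := ih K F' h' hpos' hfrK ι I'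
        (fun i => (nm μ F (y' i : E))⁻¹ • y' i) (by
          intro i hi
          have h1 : 0 < nm μ F (y' i : E) := by
            have := (hny' i hi).1
            linarith
          rw [nm_smul, hnm, abs_of_pos (inv_pos.mpr h1), inv_mul_cancel₀ h1.ne'])
      refine ⟨(b : E), G, hG.trans (Finset.filter_subset _ _), ?_, ?_⟩
      · refine le_trans ?_ hGc
        have hφ0 : 0 < Real.goldenRatio := Real.goldenRatio_pos
        have h1 : ∑ i ∈ I, (1 - p i) ≤ (I'.card : ℝ) := hω
        have h2 : (I.card : ℝ) * (Real.goldenRatio - 1) ≤ ∑ i ∈ I, (1 - p i) := by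
          have h3 : ∑ i ∈ I, (1 - p i) = (I.card : ℝ) * (Real.goldenRatio - 1) - ∑ i ∈ I, (p i - (2 - Real.goldenRatio)) := by
            rw [Finset.sum_sub_distrib, Finset.sum_sub_distrib]
            simp only [Finset.sum_const, nsmul_eq_mul, mul_one]
            ring
          rw [h3]
          linarith
        have h4 : (Real.goldenRatio ^ (k + 1))⁻¹ = (Real.goldenRatio ^ k)⁻¹ * (Real.goldenRatio - 1) := by
          have h5 : Real.goldenRatio⁻¹ = Real.goldenRatio - 1 := by
            have h6 : Real.goldenRatio ^ 2 = Real.goldenRatio + 1 := Real.goldenRatio_sq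
            rw [inv_eq_one_div, div_eq_iff hφ0.ne']
            linarith
          rw [pow_succ, mul_inv, h5]
        rw [h4]
        calc 1 / 32 * ((Real.goldenRatio ^ k)⁻¹ * (Real.goldenRatio - 1)) * (I.card : ℝ)
            = 1 / 32 * (Real.goldenRatio ^ k)⁻¹ * ((I.card : ℝ) * (Real.goldenRatio - 1)) := by ring
          _ ≤ 1 / 32 * (Real.goldenRatio ^ k)⁻¹ * (I'.card : ℝ) :=
              mul_le_mul_of_nonneg_left (h2.trans h1) (by positivity)
      · intro i hi
        obtain ⟨t, ht0, ht⟩ := hGs i hi
        have hiI := hG hi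
        obtain ⟨hl, hu⟩ := hny' i hiI
        set n : ℝ := nm μ F (y' i : E) with hn
        have hn0 : 0 < n := by linarith
        refine ⟨t * n, by positivity, ?_⟩
        have h1 : nm μ F ((y' i : E) - (t * n) • (b : E)) ≤ n * (1 - eta k) := by
          have h2 : (y' i : E) - (t * n) • (b : E) = n • ((n⁻¹ • y' i - t • b : K) : E) := by
            rw [Submodule.coe_sub, Submodule.coe_smul, Submodule.coe_smul, smul_sub, smul_smul,
              smul_smul, mul_inv_cancel₀ hn0.ne', one_smul, mul_comm t n]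
          rw [h2, nm_smul, abs_of_pos hn0, ← hnm]
          exact mul_le_mul_of_nonneg_left ht hn0.le
        have h3 := h.nm_add_le (y i - (y' i : E)) ((y' i : E) - (t * n) • (b : E))
        have h4 : y i - (y' i : E) + ((y' i : E) - (t * n) • (b : E)) = y i - (t * n) • (b : E) := by
          abel
        rw [h4] at h3
        have h5 := hdiff i hiI
        have h6 := eta_succ_le k
        have h7 : n * (1 - eta k) ≤ (1 + e) * (1 - eta k) :=
          mul_le_mul_of_nonneg_right hu (by linarith)
        nlinarith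

end Pool.Agent.ZN
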