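import Pool.Agent.ZN.Gibbs

open MeasureTheory Set Module

namespace Pool.Agent.ZN

variable {E : Type} [NormedAddCommGroup E] [NormedSpace ℝ E] [FiniteDimensional ℝ E]
  [MeasurableSpace E] [BorelSpace E]
variable {Ω : Type} [MeasurableSpace Ω]
variable {μ : Measure Ω} {F : Ω → E →ₗ[ℝ] ℝ}
variable (lam : Measure E) [lam.IsAddHaarMeasure]

/-- the central inequality: `∫_{N ≤ R} e^{-(N + N_J)} ≥ (2 - π)^{-m} Z / 2`. -/
lemma Dat.key_lower (h : Dat μ F) (hpos : ∀ b, b ≠ 0 → 0 < nm μ F b) (hm : 1 ≤ finrank ℝ E)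
    {C : Set Ω} (hC : MeasurableSet C) {p R : ℝ} (hp0 : 0 ≤ p) (hp1 : p ≤ 1)
    (hp : (∫ b, nm (μ.restrict C) F b * Real.exp (-nm μ F b) ∂lam) =
      p * ∫ b, nm μ F b * Real.exp (-nm μ F b) ∂lam)
    (hR : 40 * (finrank ℝ E : ℝ) ^ 2 ≤ R) :
    1 / 2 * (((2 - p) ^ finrank ℝ E)⁻¹ * ZZ lam μ F) ≤
      ∫ b, {b | nm μ F b ≤ R}.indicator
        (fun b => Real.exp (-(nm μ F b + nm (μ.restrict Cᶜ) F b))) b ∂lam := by
  set m := finrank ℝ E with hmdef
  have hm1 : (1 : ℝ) ≤ m := by exact_mod_cast hm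
  have hR0 : 0 < R := by nlinarith
  have hZ := h.ZZ_pos lam hpos
  set a : ℝ := 2 - p with ha
  have ha1 : 1 ≤ a := by linarith
  have ha0 : 0 < a := by linarith
  set f : E → ℝ := {b | nm μ F b ≤ R}.indicator
        (fun b => Real.exp (-(nm μ F b + nm (μ.restrict Cᶜ) F b))) with hf
  have hcN := h.continuous
  have hcC := (h.restrict C).continuous
  have hcJ := (h.restrict Cᶜ).continuous
  have hfm : Measurable f := by
    apply Measurable.indicator
    · exact (by fun_prop : Continuous (fun b => Real.exp (-(nm μ F b + nm (μ.restrict Cᶜ) F b)))).measurable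
    · exact measurableSet_le hcN.measurable measurable_const
  have hf0 : ∀ b, 0 ≤ f b := fun b => indicator_nonneg (fun _ _ => (Real.exp_pos _).le) b
  have hfle : ∀ b, f b ≤ Real.exp (-nm μ F b) := by
    intro b
    rw [hf]
    by_cases hb : nm μ F b ≤ R
    · rw [indicator_of_mem (by exact hb)]
      apply Real.exp_le_exp.mpr
      have := nm_nonneg (μ := μ.restrict Cᶜ) (F := F) b
      linarith
    · rw [indicator_of_notMem (by exact hb)]
      exact (Real.exp_pos _).le
  have hfint : Integrable f lam := by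
    refine (h.integrable_exp_one lam hpos).mono' hfm.aestronglyMeasurable ?_
    filter_upwards with b
    rw [Real.norm_of_nonneg (hf0 b)]
    exact hfle b
  have hscale := Measure.integral_comp_inv_smul_of_nonneg lam f ha0.le
  have hfaint : Integrable (fun b => f (a⁻¹ • b)) lam := by
    exact (integrable_comp_smul_iff lam f (inv_ne_zero ha0.ne')).mpr hfint
  -- pointwise bound
  have hpt : ∀ b, Real.exp (-nm μ F b) + (1 / a) * (nm (μ.restrict C) F b * Real.exp (-nm μ F b))
      - (p / a + 1 / R) * (nm μ F b * Real.exp (-nm μ F b))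
      - (1 / R) * (nm μ F b ^ 2 * Real.exp (-nm μ F b)) ≤ f (a⁻¹ • b) := by
    intro b
    have hN := nm_nonneg (μ := μ) (F := F) b
    have hNC := nm_nonneg (μ := μ.restrict C) (F := F) b
    have hsplit := h.nm_split hC b
    have hCle := h.nm_restrict_le C b
    have hE := Real.exp_pos (-nm μ F b)
    have hlhs : Real.exp (-nm μ F b) + (1 / a) * (nm (μ.restrict C) F b * Real.exp (-nm μ F b))
      - (p / a + 1 / R) * (nm μ F b * Real.exp (-nm μ F b))
      - (1 / R) * (nm μ F b ^ 2 * Real.exp (-nm μ F b)) =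
      Real.exp (-nm μ F b) * (1 + (nm (μ.restrict C) F b - p * nm μ F b) / a
        - (nm μ F b + nm μ F b ^ 2) / R) := by
      field_simp
      ring
    rw [hlhs]
    by_cases hb : nm μ F (a⁻¹ • b) ≤ R
    · have hfb : f (a⁻¹ • b) = Real.exp (-nm μ F b) *
          Real.exp ((nm (μ.restrict C) F b - p * nm μ F b) / a) := by
        rw [hf, indicator_of_mem (by exact hb), ← Real.exp_add]
        congr 1
        rw [nm_smul, nm_smul, abs_of_pos (inv_pos.mpr ha0)]
        have : nm (μ.restrict Cᶜ) F b = nm μ F b - nm (μ.restrict C) F b := by linarith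
        rw [this]
        field_simp
        rw [ha]
        ring
      rw [hfb]
      apply mul_le_mul_of_nonneg_left _ hE.le
      have h1 := Real.add_one_le_exp ((nm (μ.restrict C) F b - p * nm μ F b) / a)
      have h2 : 0 ≤ (nm μ F b + nm μ F b ^ 2) / R := by positivity
      linarith
    · have hfb : f (a⁻¹ • b) = 0 := by
        rw [hf, indicator_of_notMem (by exact hb)]
      rw [hfb]
      apply mul_nonpos_of_nonneg_of_nonpos hE.le
      rw [not_le, nm_smul, abs_of_pos (inv_pos.mpr ha0)] at hb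
      have hNR : R < nm μ F b := by
        have h3 : R * a < nm μ F b := by
          rw [inv_mul_eq_div, lt_div_iff₀ ha0] at hb
          exact hb
        nlinarith
      have h4 : (nm (μ.restrict C) F b - p * nm μ F b) / a ≤ nm μ F b := by
        rw [div_le_iff₀ ha0]
        nlinarith [mul_nonneg hp0 hN, mul_nonneg hN (by linarith : (0:ℝ) ≤ a - 1)]
      have h5 : 1 + nm μ F b ≤ (nm μ F b + nm μ F b ^ 2) / R := by
        rw [le_div_iff₀ hR0]
        nlinarith
      linarith
  have hI0 := h.integrable_exp_one lam hpos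
  have hI1 : Integrable (fun b => nm μ F b * Real.exp (-nm μ F b)) lam := by
    simpa using h.integrable_poly_one lam hpos 1
  have hI2 := h.integrable_poly_one lam hpos 2
  have hIC : Integrable (fun b => nm (μ.restrict C) F b * Real.exp (-nm μ F b)) lam := by
    apply h.integrable_of_le lam hpos hcC.measurable 0 1 0
    intro b
    rw [abs_of_nonneg (nm_nonneg _)]
    have := h.nm_restrict_le C b
    linarith
  obtain ⟨hM1, hM2⟩ := h.moment_bound lam hpos hm
  set A := ∫ b, nm μ F b * Real.exp (-nm μ F b) ∂lam with hA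
  set B := ∫ b, nm μ F b ^ 2 * Real.exp (-nm μ F b) ∂lam with hB
  have hlow : ZZ lam μ F + (1 / a) * (p * A) - (p / a + 1 / R) * A - (1 / R) * B ≤
      ∫ b, f (a⁻¹ • b) ∂lam := by
    have hJ1 : Integrable (fun b => Real.exp (-nm μ F b) +
      (1 / a) * (nm (μ.restrict C) F b * Real.exp (-nm μ F b))) lam := hI0.add (hIC.const_mul _)
    have hJ2 : Integrable (fun b => Real.exp (-nm μ F b) +
      (1 / a) * (nm (μ.restrict C) F b * Real.exp (-nm μ F b)) -
      (p / a + 1 / R) * (nm μ F b * Real.exp (-nm μ F b))) lam := hJ1.sub (hI1.const_mul _)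
    have hJ3 : Integrable (fun b => Real.exp (-nm μ F b) +
      (1 / a) * (nm (μ.restrict C) F b * Real.exp (-nm μ F b)) -
      (p / a + 1 / R) * (nm μ F b * Real.exp (-nm μ F b)) -
      (1 / R) * (nm μ F b ^ 2 * Real.exp (-nm μ F b))) lam := hJ2.sub (hI2.const_mul _)
    have hmono := integral_mono hJ3 hfaint hpt
    refine le_trans (le_of_eq ?_) hmono
    have e3 : (∫ b, (Real.exp (-nm μ F b) +
      (1 / a) * (nm (μ.restrict C) F b * Real.exp (-nm μ F b)) -
      (p / a + 1 / R) * (nm μ F b * Real.exp (-nm μ F b)) -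
      (1 / R) * (nm μ F b ^ 2 * Real.exp (-nm μ F b))) ∂lam) =
      (∫ b, (Real.exp (-nm μ F b) +
      (1 / a) * (nm (μ.restrict C) F b * Real.exp (-nm μ F b)) -
      (p / a + 1 / R) * (nm μ F b * Real.exp (-nm μ F b))) ∂lam) -
      ∫ b, (1 / R) * (nm μ F b ^ 2 * Real.exp (-nm μ F b)) ∂lam :=
      integral_sub hJ2 (hI2.const_mul _)
    have e2 : (∫ b, (Real.exp (-nm μ F b) +
      (1 / a) * (nm (μ.restrict C) F b * Real.exp (-nm μ F b)) -
      (p / a + 1 / R) * (nm μ F b * Real.exp (-nm μ F b))) ∂lam) =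
      (∫ b, (Real.exp (-nm μ F b) +
      (1 / a) * (nm (μ.restrict C) F b * Real.exp (-nm μ F b))) ∂lam) -
      ∫ b, (p / a + 1 / R) * (nm μ F b * Real.exp (-nm μ F b)) ∂lam :=
      integral_sub hJ1 (hI1.const_mul _)
    have e1 : (∫ b, (Real.exp (-nm μ F b) +
      (1 / a) * (nm (μ.restrict C) F b * Real.exp (-nm μ F b))) ∂lam) =
      (∫ b, Real.exp (-nm μ F b) ∂lam) +
      ∫ b, (1 / a) * (nm (μ.restrict C) F b * Real.exp (-nm μ F b)) ∂lam :=
      integral_add hI0 (hIC.const_mul _)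
    rw [e3, e2, e1, integral_const_mul, integral_const_mul, integral_const_mul, hp, ← hA, ← hB, ZZ]
  have hlow2 : 1 / 2 * ZZ lam μ F ≤ ∫ b, f (a⁻¹ • b) ∂lam := by
    refine le_trans ?_ hlow
    have h6 : (1 / a) * (p * A) - (p / a + 1 / R) * A = -(1 / R) * A := by ring
    have h7 : A + B ≤ 20 * (m : ℝ) ^ 2 * ZZ lam μ F := by
      have : (m : ℝ) ≤ (m : ℝ) ^ 2 := by nlinarith
      have h8 : 4 * (m : ℝ) * ZZ lam μ F ≤ 4 * (m : ℝ) ^ 2 * ZZ lam μ F := by gcongr
      linarith
    have h9 : (1 / R) * (A + B) ≤ 1 / 2 * ZZ lam μ F := by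
      rw [one_div, inv_mul_le_iff₀ hR0]
      calc A + B ≤ 20 * (m : ℝ) ^ 2 * ZZ lam μ F := h7
        _ = (40 * (m : ℝ) ^ 2) * (1 / 2 * ZZ lam μ F) := by ring
        _ ≤ _ := mul_le_mul_of_nonneg_right hR (by positivity)
    have h10 : (1 / R) * (A + B) = (1 / R) * A + (1 / R) * B := by ring
    linarith
  rw [hscale, smul_eq_mul] at hlow2
  have hapow : 0 < a ^ m := by positivity
  rw [show 1 / 2 * ((a ^ m)⁻¹ * ZZ lam μ F) = (a ^ m)⁻¹ * (1 / 2 * ZZ lam μ F) by ring,
    inv_mul_le_iff₀ hapow]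
  exact hlow2

end Pool.Agent.ZN
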