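import Pool.Agent.ZN.Gibbs

open MeasureTheory Set Module

namespace Pool.Agent.ZN

variable {E : Type} [NormedAddCommGroup E] [NormedSpace ℝ E] [FiniteDimensional ℝ E]
  [MeasurableSpace E] [BorelSpace E]
variable {Ω : Type} [MeasurableSpace Ω]
variable {μ : Measure Ω} {F : Ω → E →ₗ[ℝ] ℝ}
variable (lam : Measure E) [lam.IsAddHaarMeasure]

/-- expected size of the coordinate `ω` under the Gibbs law. -/
noncomputable def rho (μ : Measure Ω) (F : Ω → E →ₗ[ℝ] ℝ) (ω : Ω) : ℝ :=
  (∫ b, |F ω b| * Real.exp (-nm μ F b) ∂lam) / ZZ lam μ F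

lemma Dat.measurable_joint (h : Dat μ F) : Measurable (fun p : Ω × E => F p.1 p.2) := by
  classical
  let B := Module.finBasis ℝ E
  have : (fun p : Ω × E => F p.1 p.2) =
      fun p : Ω × E => ∑ i, B.repr p.2 i * F p.1 (B i) := by
    funext p
    conv_lhs => rw [← B.sum_repr p.2]
    rw [map_sum]
    exact Finset.sum_congr rfl fun i _ => by rw [map_smul, smul_eq_mul]
  rw [this]
  apply Finset.measurable_sum
  intro i _
  apply Measurable.mul
  · have hc : Continuous (fun b : E => B.repr b i) :=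
      (B.coord i).continuous_of_finiteDimensional
    exact hc.measurable.comp measurable_snd
  · exact (h.meas (B i)).comp measurable_fst

omit [MeasurableSpace E] [BorelSpace E] in
lemma Dat.exists_bound_functional (f : E →ₗ[ℝ] ℝ) : ∃ K : ℝ, ∀ b, |f b| ≤ K * ‖b‖ := by
  let L : E →L[ℝ] ℝ := LinearMap.toContinuousLinearMap f
  exact ⟨‖L‖, fun b => L.le_opNorm b⟩

lemma Dat.integrable_coord (h : Dat μ F) (hpos : ∀ b, b ≠ 0 → 0 < nm μ F b) (ω : Ω) :
    Integrable (fun b => |F ω b| * Real.exp (-nm μ F b)) lam := by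
  obtain ⟨K, hK⟩ := Dat.exists_bound_functional (F ω)
  obtain ⟨c, hc, hlow⟩ := h.exists_lower hpos
  apply h.integrable_of_le lam hpos _ 0 (|K| / c) 0
  · intro b
    rw [abs_abs]
    have h1 := hK b
    have h2 : K * ‖b‖ ≤ |K| * ‖b‖ := mul_le_mul_of_nonneg_right (le_abs_self K) (norm_nonneg _)
    have h3 : ‖b‖ ≤ nm μ F b / c := by
      rw [le_div_iff₀ hc]
      linarith [hlow b]
    have h4 : |K| * ‖b‖ ≤ |K| * (nm μ F b / c) := mul_le_mul_of_nonneg_left h3 (abs_nonneg _)
    have h5 : |K| * (nm μ F b / c) = |K| / c * nm μ F b := by ring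
    linarith
  · have : Continuous (fun b => |F ω b|) := (F ω).continuous_of_finiteDimensional.abs
    exact this.measurable

lemma rho_nonneg (h : Dat μ F) (hpos : ∀ b, b ≠ 0 → 0 < nm μ F b) (ω : Ω) :
    0 ≤ rho lam μ F ω :=
  div_nonneg (integral_nonneg fun _ => mul_nonneg (abs_nonneg _) (Real.exp_pos _).le)
    (h.ZZ_pos lam hpos).le

lemma Dat.rho_mul (h : Dat μ F) (hpos : ∀ b, b ≠ 0 → 0 < nm μ F b) (ω : Ω) :
    rho lam μ F ω * ZZ lam μ F = ∫ b, |F ω b| * Real.exp (-nm μ F b) ∂lam := by
  unfold rho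
  exact div_mul_cancel₀ _ (h.ZZ_pos lam hpos).ne'

lemma Dat.measurable_rho (h : Dat μ F) : Measurable (rho lam μ F) := by
  unfold rho
  apply Measurable.div_const
  have hm : StronglyMeasurable (fun p : Ω × E => |F p.1 p.2| * Real.exp (-nm μ F p.2)) := by
    apply Measurable.stronglyMeasurable
    apply Measurable.mul
    · exact measurable_abs.comp h.measurable_joint
    · exact Real.measurable_exp.comp (h.continuous.measurable.comp measurable_snd).neg
  exact (hm.integral_prod_right' (ν := lam)).measurable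

/-- quasi-invariance under translations: `|F v| ≤ 4 ρ` when `N v ≤ 1`. -/
lemma Dat.coord_le_one (h : Dat μ F) (hpos : ∀ b, b ≠ 0 → 0 < nm μ F b) (ω : Ω) {v : E}
    (hv : nm μ F v ≤ 1) : |F ω v| ≤ 4 * rho lam μ F ω := by
  have hZ := h.ZZ_pos lam hpos
  have hI := h.integrable_coord lam hpos ω
  have hI0 := h.integrable_exp_one lam hpos
  have hIv : Integrable (fun b => |F ω (b + v)| * Real.exp (-nm μ F (b + v))) lam :=
    hI.comp_add_right v
  have hle : ∀ b, |F ω v| * Real.exp (-nm μ F b) ≤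
      Real.exp 1 * (|F ω (b + v)| * Real.exp (-nm μ F (b + v))) +
        |F ω b| * Real.exp (-nm μ F b) := by
    intro b
    have h1 : |F ω v| ≤ |F ω (b + v)| + |F ω b| := by
      have : F ω v = F ω (b + v) - F ω b := by simp
      rw [this]
      exact abs_sub _ _
    have h2 : Real.exp (-nm μ F b) ≤ Real.exp 1 * Real.exp (-nm μ F (b + v)) := by
      rw [← Real.exp_add]
      apply Real.exp_le_exp.mpr
      have := h.nm_add_le b v
      linarith
    calc |F ω v| * Real.exp (-nm μ F b)
        ≤ (|F ω (b + v)| + |F ω b|) * Real.exp (-nm μ F b) :=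
          mul_le_mul_of_nonneg_right h1 (Real.exp_pos _).le
      _ = |F ω (b + v)| * Real.exp (-nm μ F b) + |F ω b| * Real.exp (-nm μ F b) := by ring
      _ ≤ |F ω (b + v)| * (Real.exp 1 * Real.exp (-nm μ F (b + v))) +
            |F ω b| * Real.exp (-nm μ F b) := by
          gcongr
      _ = _ := by ring
  have hmono := integral_mono (hI0.const_mul |F ω v|) ((hIv.const_mul (Real.exp 1)).add hI) hle
  have e1 : (∫ b, (Real.exp 1 * (|F ω (b + v)| * Real.exp (-nm μ F (b + v))) +
        |F ω b| * Real.exp (-nm μ F b)) ∂lam) =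
      (∫ b, Real.exp 1 * (|F ω (b + v)| * Real.exp (-nm μ F (b + v))) ∂lam) +
      ∫ b, |F ω b| * Real.exp (-nm μ F b) ∂lam := integral_add (hIv.const_mul _) hI
  have e2 : (∫ b, (|F ω (b + v)| * Real.exp (-nm μ F (b + v))) ∂lam) =
      ∫ b, |F ω b| * Real.exp (-nm μ F b) ∂lam :=
    integral_add_right_eq_self (fun b => |F ω b| * Real.exp (-nm μ F b)) v
  have hmono' : |F ω v| * ZZ lam μ F ≤ Real.exp 1 * (rho lam μ F ω * ZZ lam μ F) +
      rho lam μ F ω * ZZ lam μ F := by
    rw [h.rho_mul lam hpos ω, ZZ, ← integral_const_mul]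
    refine hmono.trans (le_of_eq ?_)
    rw [show (∫ a, ((fun x => Real.exp 1 * (|F ω (x + v)| * Real.exp (-nm μ F (x + v)))) +
      fun b => |F ω b| * Real.exp (-nm μ F b)) a ∂lam) = (∫ b, (Real.exp 1 * (|F ω (b + v)| * Real.exp (-nm μ F (b + v))) +
        |F ω b| * Real.exp (-nm μ F b)) ∂lam) from rfl]
    rw [e1, integral_const_mul, e2]
  have he : Real.exp 1 ≤ 3 := by
    have := Real.exp_one_lt_d9
    linarith
  have hr := rho_nonneg lam h hpos ω
  have : |F ω v| * ZZ lam μ F ≤ (4 * rho lam μ F ω) * ZZ lam μ F := by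
    refine hmono'.trans ?_
    have := mul_nonneg hr hZ.le
    nlinarith
  exact le_of_mul_le_mul_right this hZ

lemma Dat.coord_le (h : Dat μ F) (hpos : ∀ b, b ≠ 0 → 0 < nm μ F b) (ω : Ω) (v : E) :
    |F ω v| ≤ 4 * rho lam μ F ω * nm μ F v := by
  by_cases hv : v = 0
  · subst hv
    simp [nm_zero]
  · have hN := hpos v hv
    have h1 := h.coord_le_one lam hpos ω (v := (nm μ F v)⁻¹ • v) (by
      rw [nm_smul, abs_of_pos (inv_pos.mpr hN), inv_mul_cancel₀ hN.ne'])
    rw [map_smul, smul_eq_mul, abs_mul, abs_of_pos (inv_pos.mpr hN), inv_mul_le_iff₀ hN] at h1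
    linarith

/-- there is a vector with a large coordinate `ω`. -/
lemma Dat.exists_large (h : Dat μ F) (hpos : ∀ b, b ≠ 0 → 0 < nm μ F b)
    (hm : 1 ≤ finrank ℝ E) (ω : Ω) (hr : 0 < rho lam μ F ω) :
    ∃ v : E, F ω v ≠ 0 ∧ nm μ F v * rho lam μ F ω ≤ 8 * finrank ℝ E * |F ω v| := by
  by_contra hcon
  push Not at hcon
  have hZ := h.ZZ_pos lam hpos
  have hI := h.integrable_coord lam hpos ω
  have hI1 : Integrable (fun b => nm μ F b * Real.exp (-nm μ F b)) lam := by
    simpa using h.integrable_poly_one lam hpos 1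
  have hm0 : (0 : ℝ) < finrank ℝ E := by exact_mod_cast hm
  have hle : ∀ b, 8 * finrank ℝ E * (|F ω b| * Real.exp (-nm μ F b)) ≤
      rho lam μ F ω * (nm μ F b * Real.exp (-nm μ F b)) := by
    intro b
    have hE := Real.exp_pos (-nm μ F b)
    by_cases hb : F ω b = 0
    · rw [hb]
      simp only [abs_zero, zero_mul, mul_zero]
      exact mul_nonneg hr.le (mul_nonneg (nm_nonneg _) hE.le)
    · have := (hcon b hb).le
      nlinarith
  have hmono := integral_mono (hI.const_mul (8 * (finrank ℝ E : ℝ))) (hI1.const_mul (rho lam μ F ω)) hle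
  rw [integral_const_mul, integral_const_mul, ← h.rho_mul lam hpos ω] at hmono
  obtain ⟨hM1, _⟩ := h.moment_bound lam hpos hm
  have h2 : rho lam μ F ω * (∫ b, nm μ F b * Real.exp (-nm μ F b) ∂lam) ≤
      rho lam μ F ω * (4 * finrank ℝ E * ZZ lam μ F) := mul_le_mul_of_nonneg_left hM1 hr.le
  have h3 : 0 < finrank ℝ E * (rho lam μ F ω * ZZ lam μ F) := by positivity
  nlinarith

/-- Fubini. -/
lemma Dat.integral_rho [SFinite μ] (h : Dat μ F) (hpos : ∀ b, b ≠ 0 → 0 < nm μ F b) (C : Set Ω) :
    Integrable (rho lam μ F) (μ.restrict C) ∧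
    (∫ ω in C, rho lam μ F ω ∂μ) * ZZ lam μ F =
      ∫ b, nm (μ.restrict C) F b * Real.exp (-nm μ F b) ∂lam := by
  have hZ := h.ZZ_pos lam hpos
  have hmj : Measurable (fun p : Ω × E => |F p.1 p.2| * Real.exp (-nm μ F p.2)) := by
    apply Measurable.mul
    · exact measurable_abs.comp h.measurable_joint
    · exact Real.measurable_exp.comp (h.continuous.measurable.comp measurable_snd).neg
  have hprod : Integrable (Function.uncurry fun (ω : Ω) (b : E) =>
      |F ω b| * Real.exp (-nm μ F b)) ((μ.restrict C).prod lam) := by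
    have hmj' : Measurable (Function.uncurry fun (ω : Ω) (b : E) =>
      |F ω b| * Real.exp (-nm μ F b)) := hmj
    rw [integrable_prod_iff' hmj'.aestronglyMeasurable]
    constructor
    · filter_upwards with b
      exact (((h.restrict C).int b).abs.mul_const (Real.exp (-nm μ F b)))
    · have : ∀ b, (∫ ω, ‖Function.uncurry (fun (ω : Ω) (b : E) =>
          |F ω b| * Real.exp (-nm μ F b)) (ω, b)‖ ∂(μ.restrict C)) =
          nm (μ.restrict C) F b * Real.exp (-nm μ F b) := by
        intro b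
        simp only [Function.uncurry_apply_pair, norm_mul, Real.norm_eq_abs, abs_abs, Real.abs_exp]
        rw [integral_mul_const]
        rfl
      simp_rw [this]
      apply h.integrable_of_le lam hpos (h.restrict C).continuous.measurable 0 1 0
      intro b
      rw [abs_of_nonneg (nm_nonneg _)]
      have := h.nm_restrict_le C b
      linarith
  have hswap := integral_integral_swap hprod
  constructor
  · have := hprod.integral_prod_left
    exact this.div_const _
  · have e : ∀ b, (∫ ω in C, |F ω b| * Real.exp (-nm μ F b) ∂μ) =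
        nm (μ.restrict C) F b * Real.exp (-nm μ F b) := by
      intro b
      rw [integral_mul_const]
      rfl
    simp_rw [e] at hswap
    rw [← hswap, ← integral_mul_const]
    apply integral_congr_ae
    filter_upwards with ω
    exact h.rho_mul lam hpos ω

end Pool.Agent.ZN
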