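import Mathlib

open MeasureTheory Set Module

namespace Pool.Agent.ZN

variable {E : Type} [NormedAddCommGroup E] [NormedSpace ℝ E] [FiniteDimensional ℝ E]
  [MeasurableSpace E] [BorelSpace E]
variable (lam : Measure E) [lam.IsAddHaarMeasure]

lemma lint_line (y : E) (l : E →ₗ[ℝ] ℝ) (hl : l y = 1) {f : E → ENNReal} (hf : Measurable f) :
    ∫⁻ b, f b ∂lam =
      ∫⁻ b, (Ico (0:ℝ) 1).indicator (fun _ => (1 : ENNReal)) (l b) *
        (∫⁻ t : ℝ, f (b + t • y)) ∂lam := by
  have hlc : Continuous l := l.continuous_of_finiteDimensional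
  have hind : Measurable ((Ico (0:ℝ) 1).indicator (fun _ => (1 : ENNReal))) :=
    measurable_const.indicator measurableSet_Ico
  have hfm : Measurable (fun p : E × ℝ => f (p.1 + p.2 • y)) :=
    hf.comp (by fun_prop)
  have hψ : Measurable (fun p : E × ℝ => (Ico (0:ℝ) 1).indicator (fun _ => (1 : ENNReal)) (l p.1)) :=
    hind.comp (hlc.measurable.comp measurable_fst)
  symm
  calc ∫⁻ b, (Ico (0:ℝ) 1).indicator (fun _ => (1 : ENNReal)) (l b) *
        (∫⁻ t : ℝ, f (b + t • y)) ∂lam
      = ∫⁻ b, (∫⁻ t : ℝ, (Ico (0:ℝ) 1).indicator (fun _ => (1 : ENNReal)) (l b) *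
          f (b + t • y)) ∂lam := by
        apply lintegral_congr
        intro b
        rw [lintegral_const_mul]
        exact hfm.comp (measurable_const.prodMk measurable_id)
    _ = ∫⁻ t : ℝ, ∫⁻ b, (Ico (0:ℝ) 1).indicator (fun _ => (1 : ENNReal)) (l b) *
          f (b + t • y) ∂lam := by
        rw [lintegral_lintegral_swap]
        exact (hψ.mul hfm).aemeasurable
    _ = ∫⁻ t : ℝ, ∫⁻ b, (Ico (0:ℝ) 1).indicator (fun _ => (1 : ENNReal)) (l b - t) *
          f b ∂lam := by
        apply lintegral_congr
        intro t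
        rw [← lintegral_add_right_eq_self (μ := lam) (fun b =>
          (Ico (0:ℝ) 1).indicator (fun _ => (1 : ENNReal)) (l b - t) * f b) (t • y)]
        apply lintegral_congr
        intro b
        simp [hl]
    _ = ∫⁻ b, (∫⁻ t : ℝ, (Ico (0:ℝ) 1).indicator (fun _ => (1 : ENNReal)) (l b - t) *
          f b) ∂lam := by
        rw [lintegral_lintegral_swap]
        apply Measurable.aemeasurable
        apply Measurable.mul
        · exact hind.comp ((hlc.measurable.comp measurable_snd).sub measurable_fst)
        · exact hf.comp measurable_snd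
    _ = ∫⁻ b, f b ∂lam := by
        apply lintegral_congr
        intro b
        rw [lintegral_mul_const]
        · rw [lintegral_sub_left_eq_self (μ := volume) (fun t =>
            (Ico (0:ℝ) 1).indicator (fun _ => (1 : ENNReal)) t) (l b)]
          rw [lintegral_indicator_const measurableSet_Ico]
          simp
        · exact hind.comp (measurable_const.sub measurable_id)

/-- shears preserve the Haar measure. -/
theorem lint_shear (y : E) (l : E →ₗ[ℝ] ℝ) (hl : l y = 1) {f : E → ENNReal} (hf : Measurable f)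
    {g : E → ℝ} (hg : Measurable g) (hinv : ∀ b (t : ℝ), g (b + t • y) = g b) :
    ∫⁻ b, f (b + g b • y) ∂lam = ∫⁻ b, f b ∂lam := by
  have hf' : Measurable (fun b => f (b + g b • y)) :=
    hf.comp (measurable_id.add (hg.smul_const y))
  rw [lint_line lam y l hl hf', lint_line lam y l hl hf]
  apply lintegral_congr
  intro b
  congr 1
  calc ∫⁻ t : ℝ, f (b + t • y + g (b + t • y) • y) = ∫⁻ t : ℝ, f (b + (t + g b) • y) := by
        apply lintegral_congr
        intro t
        rw [hinv, add_smul, add_assoc]
    _ = ∫⁻ t : ℝ, f (b + t • y) :=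
        lintegral_add_right_eq_self (μ := volume) (fun t : ℝ => f (b + t • y)) (g b)

end Pool.Agent.ZN
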