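import Pool.Agent.ZN.Key
import Pool.Agent.ZN.Rho
import Pool.Agent.ZN.Shear

open MeasureTheory Set Module

namespace Pool.Agent.ZN

variable {E : Type} [NormedAddCommGroup E] [NormedSpace ℝ E]
variable {Ω : Type} [MeasurableSpace Ω]
variable {μ : Measure Ω} {F : Ω → E →ₗ[ℝ] ℝ}

/-- sign of the coordinate `ω` of `y` -/
noncomputable def sg (F : Ω → E →ₗ[ℝ] ℝ) (y : E) (ω : Ω) : ℝ := F ω y / |F ω y|

omit [MeasurableSpace Ω] in
lemma sg_mul (y : E) (ω : Ω) : sg F y ω * F ω y = |F ω y| := by
  unfold sg
  by_cases h : F ω y = 0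
  · simp [h]
  · have : |F ω y| ≠ 0 := abs_ne_zero.mpr h
    field_simp
    rw [sq_abs]

omit [MeasurableSpace Ω] in
lemma abs_sg_le (y : E) (ω : Ω) : |sg F y ω| ≤ 1 := by
  unfold sg
  rw [abs_div, abs_abs]
  exact div_self_le_one _

lemma Dat.measurable_sg (h : Dat μ F) (y : E) : Measurable (sg F y) :=
  (h.meas y).div (measurable_abs.comp (h.meas y))

lemma Dat.sg_int (h : Dat μ F) (y b : E) : Integrable (fun ω => sg F y ω * F ω b) μ := by
  refine (h.int b).abs.mono' ((h.measurable_sg y).mul (h.meas b)).aestronglyMeasurable ?_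
  filter_upwards with ω
  rw [norm_mul, Real.norm_eq_abs, Real.norm_eq_abs]
  exact mul_le_of_le_one_left (abs_nonneg _) (abs_sg_le y ω)

/-- the norming functional at `y` -/
noncomputable def Dat.lf (h : Dat μ F) (y : E) : E →ₗ[ℝ] ℝ where
  toFun b := ∫ ω, sg F y ω * F ω b ∂μ
  map_add' a b := by
    rw [← integral_add (h.sg_int y a) (h.sg_int y b)]
    congr 1
    funext ω
    rw [map_add, mul_add]
  map_smul' c b := by
    rw [RingHom.id_apply, smul_eq_mul, ← integral_const_mul]
    congr 1
    funext ω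
    rw [map_smul, smul_eq_mul]
    ring

lemma Dat.lf_apply (h : Dat μ F) (y b : E) : h.lf y b = ∫ ω, sg F y ω * F ω b ∂μ := rfl

lemma Dat.lf_self (h : Dat μ F) (y : E) : h.lf y y = nm μ F y := by
  rw [h.lf_apply, nm]
  congr 1
  funext ω
  exact sg_mul y ω

lemma Dat.abs_lf_le (h : Dat μ F) (y b : E) : |h.lf y b| ≤ nm μ F b := by
  rw [h.lf_apply, nm]
  refine (abs_integral_le_integral_abs).trans ?_
  apply integral_mono (h.sg_int y b).abs (h.int b).abs
  intro ω
  simp only
  rw [abs_mul]
  exact mul_le_of_le_one_left (abs_nonneg _) (abs_sg_le y ω)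

variable [FiniteDimensional ℝ E] [MeasurableSpace E] [BorelSpace E]
variable (lam : Measure E) [lam.IsAddHaarMeasure]

lemma int_shear (y : E) (l : E →ₗ[ℝ] ℝ) (hl : l y = 1) {f : E → ℝ} (hf : Measurable f)
    (hf0 : ∀ b, 0 ≤ f b) (hfi : Integrable f lam)
    {g : E → ℝ} (hg : Measurable g) (hinv : ∀ b (t : ℝ), g (b + t • y) = g b) :
    Integrable (fun b => f (b + g b • y)) lam ∧
    ∫ b, f (b + g b • y) ∂lam = ∫ b, f b ∂lam := by
  have hsh := lint_shear lam y l hl (f := fun b => ENNReal.ofReal (f b))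
    (ENNReal.measurable_ofReal.comp hf) hg hinv
  have hm : Measurable (fun b => f (b + g b • y)) := hf.comp (measurable_id.add (hg.smul_const y))
  constructor
  · refine ⟨hm.aestronglyMeasurable, ?_⟩
    rw [hasFiniteIntegral_iff_ofReal (Filter.Eventually.of_forall fun b => hf0 _), hsh,
      ← hasFiniteIntegral_iff_ofReal (Filter.Eventually.of_forall fun b => hf0 b)]
    exact hfi.2
  · rw [integral_eq_lintegral_of_nonneg_ae (Filter.Eventually.of_forall fun b => hf0 _)
      hm.aestronglyMeasurable,
      integral_eq_lintegral_of_nonneg_ae (Filter.Eventually.of_forall fun b => hf0 _)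
      hf.aestronglyMeasurable, hsh]

/-- the set of good directions for `y` (large coordinates `C`, radius bound `R`). -/
def goodSet (μ : Measure Ω) (F : Ω → E →ₗ[ℝ] ℝ) (s : E →ₗ[ℝ] ℝ) (C : Set Ω) (R : ℝ) : Set E :=
  {b | 1 / 2 ≤ s b - nm (μ.restrict Cᶜ) F b ∧ nm μ F b ≤ 2 * R + 2}

/-- probability of the good set. -/
theorem Dat.terminal (h : Dat μ F) (hpos : ∀ b, b ≠ 0 → 0 < nm μ F b) (hm : 1 ≤ finrank ℝ E)
    {C : Set Ω} (hC : MeasurableSet C) {p R δ : ℝ} (hp0 : 0 ≤ p) (hp1 : p ≤ 1)
    (hp : (∫ b, nm (μ.restrict C) F b * Real.exp (-nm μ F b) ∂lam) =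
      p * ∫ b, nm μ F b * Real.exp (-nm μ F b) ∂lam)
    (hR : 40 * (finrank ℝ E : ℝ) ^ 2 ≤ R) {y : E} (hy : nm μ F y = 1)
    (hδ : nm (μ.restrict Cᶜ) F y ≤ δ) (hRδ : R * δ ≤ 1 / 8) :
    1 / 32 * (((2 - p) ^ finrank ℝ E)⁻¹ * ZZ lam μ F) ≤
      ∫ b, (goodSet μ F ((h.restrict C).lf y) C R).indicator
        (fun b => Real.exp (-nm μ F b)) b ∂lam := by
  set s := (h.restrict C).lf y with hs
  set A := goodSet μ F s C R with hA
  have hm1 : (1 : ℝ) ≤ finrank ℝ E := by exact_mod_cast hm
  have hR0 : 40 ≤ R := by nlinarith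
  have hδ0 : 0 ≤ δ := (nm_nonneg _).trans hδ
  have hδ1 : δ ≤ 1 / 320 := by nlinarith
  have hcN := h.continuous
  have hcJ := (h.restrict Cᶜ).continuous
  have hsc : Continuous s := s.continuous_of_finiteDimensional
  set l := h.lf y with hl
  have hly : l y = 1 := by rw [hl, h.lf_self, hy]
  have hlc : Continuous l := l.continuous_of_finiteDimensional
  have hsy : s y = 1 - nm (μ.restrict Cᶜ) F y := by
    rw [hs, (h.restrict C).lf_self, ← hy, ← h.nm_split hC y]
    ring
  have hAm : MeasurableSet A := by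
    apply MeasurableSet.inter
    · exact measurableSet_le measurable_const (hsc.sub hcJ).measurable
    · exact measurableSet_le hcN.measurable measurable_const
  set φ : E → ℝ := A.indicator (fun b => Real.exp (-nm μ F b)) with hφ
  have hem : Measurable (fun b => Real.exp (-nm μ F b)) := by
    have : Continuous (fun b => Real.exp (-nm μ F b)) := by fun_prop
    exact this.measurable
  have hφm : Measurable φ := hem.indicator hAm
  have hφ0 : ∀ b, 0 ≤ φ b := fun b => indicator_nonneg (fun _ _ => (Real.exp_pos _).le) b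
  have hφi : Integrable φ lam := (h.integrable_exp_one lam hpos).indicator hAm
  set g : E → ℝ := fun b => (1 + 4 * δ) * (nm (μ.restrict Cᶜ) F (b - l b • y) + 1) with hg
  have hgm : Measurable g := by
    have : Continuous g := by
      have h1 : Continuous (fun b => nm (μ.restrict Cᶜ) F (b - l b • y)) :=
        hcJ.comp (continuous_id.sub (hlc.smul continuous_const))
      fun_prop
    exact this.measurable
  have hginv : ∀ b (t : ℝ), g (b + t • y) = g b := by
    intro b t
    have : b + t • y - l (b + t • y) • y = b - l b • y := by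
      rw [map_add, map_smul, hly, smul_eq_mul, mul_one, add_smul]
      abel
    simp only [hg]
    rw [this]
  obtain ⟨hTi, hTe⟩ := int_shear lam y l hly hφm hφ0 hφi hgm hginv
  -- the even function on the ball
  set f0 : E → ℝ := {b | nm μ F b ≤ R}.indicator
        (fun b => Real.exp (-(nm μ F b + nm (μ.restrict Cᶜ) F b))) with hf0
  have hkey := h.key_lower lam hpos hm hC hp0 hp1 hp hR
  set ψ : E → ℝ := fun b => Real.exp (-2) * ({b | 0 ≤ s b}.indicator f0 b) with hψ
  have hball : MeasurableSet {b | nm μ F b ≤ R} := measurableSet_le hcN.measurable measurable_const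
  have hhalf : MeasurableSet {b | 0 ≤ s b} := measurableSet_le measurable_const hsc.measurable
  have hf0m : Measurable f0 := by
    apply Measurable.indicator _ hball
    exact (by fun_prop : Continuous (fun b => Real.exp (-(nm μ F b + nm (μ.restrict Cᶜ) F b)))).measurable
  have hf0nn : ∀ b, 0 ≤ f0 b := fun b => indicator_nonneg (fun _ _ => (Real.exp_pos _).le) b
  have hf0i : Integrable f0 lam := by
    refine (h.integrable_exp_one lam hpos).mono' hf0m.aestronglyMeasurable ?_
    filter_upwards with b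
    rw [Real.norm_of_nonneg (hf0nn b), hf0]
    by_cases hb : nm μ F b ≤ R
    · rw [indicator_of_mem (by exact hb)]
      apply Real.exp_le_exp.mpr
      have := nm_nonneg (μ := μ.restrict Cᶜ) (F := F) b
      linarith
    · rw [indicator_of_notMem (by exact hb)]
      exact (Real.exp_pos _).le
  have hψi : Integrable ψ lam := (hf0i.indicator hhalf).const_mul _
  -- ψ ≤ φ ∘ T
  have hle : ∀ b, ψ b ≤ φ (b + g b • y) := by
    intro b
    simp only [hψ]
    by_cases hb : 0 ≤ s b ∧ nm μ F b ≤ R
    · obtain ⟨hb1, hb2⟩ := hb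
      have hJb := nm_nonneg (μ := μ.restrict Cᶜ) (F := F) b
      have hJle : nm (μ.restrict Cᶜ) F b ≤ nm μ F b := h.nm_restrict_le Cᶜ b
      have hlb : |l b| ≤ nm μ F b := h.abs_lf_le y b
      set b' := b - l b • y with hb'
      have hJb' : nm (μ.restrict Cᶜ) F b' ≤ nm (μ.restrict Cᶜ) F b + 1 / 8 := by
        have h1 := (h.restrict Cᶜ).nm_sub_le b (l b • y)
        rw [nm_smul] at h1
        have h2 : |l b| * nm (μ.restrict Cᶜ) F y ≤ R * δ :=
          mul_le_mul (hlb.trans hb2) hδ (nm_nonneg _) (by linarith)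
        linarith
      have hJb'0 := nm_nonneg (μ := μ.restrict Cᶜ) (F := F) b'
      have hgb : g b = (1 + 4 * δ) * (nm (μ.restrict Cᶜ) F b' + 1) := rfl
      have hg0 : 0 ≤ g b := by rw [hgb]; positivity
      have hgle : g b ≤ nm (μ.restrict Cᶜ) F b + 2 := by
        rw [hgb]
        have h3 : δ * nm (μ.restrict Cᶜ) F b' ≤ δ * (R + 1 / 8) := by
          apply mul_le_mul_of_nonneg_left _ hδ0
          linarith
        nlinarith
      have hTN : nm μ F (b + g b • y) ≤ nm μ F b + g b := by
        have := h.nm_add_le b (g b • y)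
        rw [nm_smul, hy, abs_of_nonneg hg0, mul_one] at this
        exact this
      -- membership in A
      have hTJ : nm (μ.restrict Cᶜ) F (b + g b • y) ≤
          nm (μ.restrict Cᶜ) F b' + (1 / 8 + g b * δ) := by
        have h4 : b + g b • y = b' + (l b + g b) • y := by
          rw [hb', add_smul]
          abel
        rw [h4]
        have h5 := (h.restrict Cᶜ).nm_add_le b' ((l b + g b) • y)
        rw [nm_smul] at h5
        have h6 : |l b + g b| * nm (μ.restrict Cᶜ) F y ≤ 1 / 8 + g b * δ := by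
          calc |l b + g b| * nm (μ.restrict Cᶜ) F y ≤ (|l b| + |g b|) * δ :=
                mul_le_mul (abs_add_le _ _) hδ (nm_nonneg _) (by positivity)
            _ = |l b| * δ + g b * δ := by rw [abs_of_nonneg hg0]; ring
            _ ≤ R * δ + g b * δ := by
                have := mul_le_mul_of_nonneg_right (hlb.trans hb2) hδ0
                linarith
            _ ≤ _ := by linarith
        linarith
      have hTs : s (b + g b • y) = s b + g b * (1 - nm (μ.restrict Cᶜ) F y) := by
        rw [map_add, map_smul, hsy, smul_eq_mul]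
      have hmemA : b + g b • y ∈ A := by
        constructor
        · rw [hTs]
          have h7 : g b * (1 - nm (μ.restrict Cᶜ) F y) ≥ g b * (1 - δ) :=
            mul_le_mul_of_nonneg_left (by linarith) hg0
          have h8 : g b * (1 - 2 * δ) ≥ nm (μ.restrict Cᶜ) F b' + 1 := by
            rw [hgb]
            have h9 : (1 + 4 * δ) * (1 - 2 * δ) ≥ 1 := by nlinarith
            nlinarith
          nlinarith
        · refine hTN.trans ?_
          linarith
      rw [indicator_of_mem (by exact hb1), hf0, indicator_of_mem (by exact hb2), hφ,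
        indicator_of_mem hmemA, ← Real.exp_add]
      apply Real.exp_le_exp.mpr
      linarith
    · have : {b | 0 ≤ s b}.indicator f0 b = 0 := by
        by_cases h1 : 0 ≤ s b
        · rw [indicator_of_mem (by exact h1), hf0]
          apply indicator_of_notMem
          intro h2
          exact hb ⟨h1, h2⟩
        · exact indicator_of_notMem (by exact h1) _
      rw [this, mul_zero]
      exact hφ0 _
  have hmono : ∫ b, ψ b ∂lam ≤ ∫ b, φ b ∂lam := by
    rw [← hTe]
    exact integral_mono hψi hTi hle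
  -- symmetry
  have hsym : Real.exp (-2) * (1 / 2 * ∫ b, f0 b ∂lam) ≤ ∫ b, ψ b ∂lam := by
    have hneg : ∫ b, ψ (-b) ∂lam = ∫ b, ψ b ∂lam := integral_neg_eq_self ψ lam
    have hψni : Integrable (fun b => ψ (-b)) lam := hψi.comp_neg
    have hsum : Real.exp (-2) * ∫ b, f0 b ∂lam ≤ (∫ b, ψ b ∂lam) + ∫ b, ψ (-b) ∂lam := by
      rw [← integral_const_mul, ← integral_add hψi hψni]
      apply integral_mono (hf0i.const_mul _) (hψi.add hψni)
      intro b
      simp only [hψ, Pi.add_apply]
      rw [← mul_add]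
      apply mul_le_mul_of_nonneg_left _ (Real.exp_pos _).le
      have hev : f0 (-b) = f0 b := by
        simp only [hf0, indicator, mem_ofPred_eq, nm_neg]
      have hi0 : ∀ c : E, 0 ≤ {b | 0 ≤ s b}.indicator f0 c :=
        fun c => indicator_nonneg (fun x _ => hf0nn x) c
      rcases le_total 0 (s b) with h1 | h1
      · rw [indicator_of_mem (by exact h1)]
        have := hi0 (-b)
        linarith
      · have h2 : (-b) ∈ {b | 0 ≤ s b} := by
          rw [mem_ofPred_eq, map_neg]
          linarith
        rw [indicator_of_mem h2, hev]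
        have := hi0 b
        linarith
    linarith
  have he2 : Real.exp (-2) ≥ 1 / 8 := by
    rw [Real.exp_neg, ge_iff_le, one_div]
    apply inv_anti₀ (Real.exp_pos 2)
    have h10 : Real.exp 2 = Real.exp 1 ^ 2 := by
      rw [← Real.exp_nat_mul]
      norm_num
    rw [h10]
    have h11 := Real.exp_one_lt_d9
    have h12 := Real.exp_pos 1
    nlinarith
  have hf0int : 0 ≤ ∫ b, f0 b ∂lam := integral_nonneg hf0nn
  calc 1 / 32 * (((2 - p) ^ finrank ℝ E)⁻¹ * ZZ lam μ F)
      = 1 / 8 * (1 / 2 * (1 / 2 * (((2 - p) ^ finrank ℝ E)⁻¹ * ZZ lam μ F))) := by ring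
    _ ≤ 1 / 8 * (1 / 2 * ∫ b, f0 b ∂lam) := by
        have := hkey
        linarith
    _ ≤ Real.exp (-2) * (1 / 2 * ∫ b, f0 b ∂lam) := by
        apply mul_le_mul_of_nonneg_right he2
        positivity
    _ ≤ _ := hsym.trans hmono

/-- good directions shorten `y`. -/
theorem Dat.good_shortens (h : Dat μ F) (hpos : ∀ b, b ≠ 0 → 0 < nm μ F b)
    {ε R : ℝ} (hε : 0 < ε) (hR : 0 ≤ R) {y : E} {C : Set Ω} (hC : MeasurableSet C)
    (hCdef : ∀ ω ∈ C, ε * rho lam μ F ω < |F ω y|) {b : E}
    (hb : b ∈ goodSet μ F ((h.restrict C).lf y) C R) :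
    nm μ F (y - (ε / (8 * (R + 1))) • b) ≤ nm μ F y - ε / (16 * (R + 1)) := by
  obtain ⟨hb1, hb2⟩ := hb
  set t : ℝ := ε / (8 * (R + 1)) with ht
  have ht0 : 0 < t := by positivity
  rw [← h.nm_split hC (y - t • b), ← h.nm_split hC y]
  have hJ : nm (μ.restrict Cᶜ) F (y - t • b) ≤
      nm (μ.restrict Cᶜ) F y + t * nm (μ.restrict Cᶜ) F b := by
    have := (h.restrict Cᶜ).nm_sub_le y (t • b)
    rwa [nm_smul, abs_of_pos ht0] at this
  have hCC : nm (μ.restrict C) F (y - t • b) = nm (μ.restrict C) F y - t * (h.restrict C).lf y b := by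
    rw [(h.restrict C).lf_apply]
    unfold nm
    rw [← integral_const_mul, ← integral_sub ((h.restrict C).int y).abs
      (((h.restrict C).sg_int y b).const_mul t)]
    apply setIntegral_congr_fun hC
    intro ω hω
    simp only
    have h1 := hCdef ω hω
    have h2 := h.coord_le lam hpos ω b
    have hr := rho_nonneg lam h hpos ω
    have h3 : t * |F ω b| ≤ |F ω y| := by
      calc t * |F ω b| ≤ t * (4 * rho lam μ F ω * nm μ F b) :=
            mul_le_mul_of_nonneg_left h2 ht0.le
        _ ≤ t * (4 * rho lam μ F ω * (2 * R + 2)) := by gcongr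
        _ = ε * rho lam μ F ω := by
            rw [ht]
            field_simp
            ring
        _ ≤ |F ω y| := h1.le
    rw [map_sub, map_smul, smul_eq_mul]
    rcases lt_trichotomy (F ω y) 0 with h4 | h4 | h4
    · have hs : sg F y ω = -1 := by
        unfold sg
        rw [abs_of_neg h4, div_neg, div_self h4.ne]
      rw [hs, abs_of_neg h4] at *
      have h5 : F ω y - t * F ω b ≤ 0 := by
        have := neg_abs_le (F ω b)
        nlinarith
      rw [abs_of_nonpos h5]
      ring
    · exfalso
      rw [h4, abs_zero] at h1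
      nlinarith [mul_nonneg hε.le hr]
    · have hs : sg F y ω = 1 := by
        unfold sg
        rw [abs_of_pos h4, div_self h4.ne']
      rw [hs, abs_of_pos h4] at *
      have h5 : 0 ≤ F ω y - t * F ω b := by
        have := le_abs_self (F ω b)
        nlinarith
      rw [abs_of_nonneg h5]
      ring
  rw [hCC]
  have h6 : t * (1 / 2) ≤ t * ((h.restrict C).lf y b - nm (μ.restrict Cᶜ) F b) :=
    mul_le_mul_of_nonneg_left hb1 ht0.le
  have h7 : t * (1 / 2) = ε / (16 * (R + 1)) := by
    rw [ht]
    field_simp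
    ring
  nlinarith

end Pool.Agent.ZN
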